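import Pool.Agent.W5h17.AC.Fin

/-!
Accessible vertices: final forms.
-/

set_option autoImplicit false

namespace Pool.Agent.W5h17.AC
open H974 H12S Finset H389NS H984P H984N H342P Filter Topology
open Pool.Agent.W424.OD
open Pool.Agent.Y997.OBL (S_OPAR)

theorem squares_one (n : ℕ) (F : Finset Plain.Edge) (v : ℤ × ℤ) :
    ((accessible n F v).image (fun w => (w.1 / ((1 : ℕ) : ℤ), w.2 / ((1 : ℕ) : ℤ)))).card =
      (accessible n F v).card := by
  apply Finset.card_image_of_injective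
  intro a b h
  simp only [Nat.cast_one, Int.ediv_one, Prod.mk.injEq] at h
  exact Prod.ext h.1 h.2

theorem prob_ge {n : ℕ} {A : Finset Plain.Edge → Prop} {δ : ℝ}
    (h : Pr (fun _ => (1/2:ℝ)) (RE 0 n 0 n) (fun F => ¬ A F) ≤ δ) : 1 - δ ≤ Plain.prob n A := by
  rw [← Plain.prob_eq, Plain.prob_not] at h
  linarith

theorem both {C : ℝ} (hC : 0 < C) (hU : Up3 C) (hO : S_OPAR) {δ : ℝ} (hδ : 0 < δ) :
    ∃ (c K : ℝ) (n₀ : ℕ), 0 < c ∧ 0 < K ∧ ∀ n : ℕ, n₀ ≤ n →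
      (∀ m : ℕ, 1 ≤ m → m ≤ n → 1 - δ ≤ Plain.prob n (fun F => ∀ v, Plain.Largest n F v →
        c * ((n : ℝ) / m) ^ (4 / 3 : ℝ) ≤ NM n m F v ∧
          NM n m F v ≤ K * ((n : ℝ) / m) ^ (4 / 3 : ℝ))) ∧
      1 - δ ≤ Plain.prob n (fun F => ∀ v, Plain.Largest n F v → ∀ m : ℕ, 1 ≤ m → m ≤ n →
        c * ((n : ℝ) / m) ^ (4 / 3 : ℝ) / (1 + Real.log ((n : ℝ) / m)) ^ 2 ≤ NM n m F v ∧
          NM n m F v ≤
            K * ((n : ℝ) / m) ^ (4 / 3 : ℝ) * (1 + Real.log ((n : ℝ) / m)) ^ 2) := by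
  obtain ⟨c1, K1, N1, hc1, hK1, h1⟩ := fixed_scale hC hU hO hδ
  obtain ⟨c2, K2, N2, hc2, hK2, h2⟩ := all_scales hC hU hO hδ
  refine ⟨min c1 c2, max K1 K2, max N1 N2, lt_min hc1 hc2, lt_max_of_lt_left hK1,
    fun n hn => ⟨fun m hm hmn => ?_, ?_⟩⟩
  · apply prob_ge
    refine le_trans (Pr_mono hok ?_) (h1 n ((le_max_left _ _).trans hn) m hm hmn)
    intro F _ hF hcon
    apply hF
    intro v hv
    obtain ⟨g1, g2⟩ := hcon v hv
    have hx : 0 ≤ ((n : ℝ) / m) ^ (4 / 3 : ℝ) := by positivity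
    exact ⟨(mul_le_mul_of_nonneg_right (min_le_left _ _) hx).trans g1,
      g2.trans (mul_le_mul_of_nonneg_right (le_max_left _ _) hx)⟩
  · apply prob_ge
    refine le_trans (Pr_mono hok ?_) (h2 n ((le_max_right _ _).trans hn))
    intro F _ hF hcon
    apply hF
    intro v hv m hm hmn
    obtain ⟨g1, g2⟩ := hcon v hv m hm hmn
    have hx : 0 ≤ ((n : ℝ) / m) ^ (4 / 3 : ℝ) := by positivity
    refine ⟨le_trans ?_ g1, g2.trans ?_⟩
    · apply div_le_div_of_nonneg_right _ (by positivity)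
      exact mul_le_mul_of_nonneg_right (min_le_right _ _) hx
    · apply mul_le_mul_of_nonneg_right _ (by positivity)
      exact mul_le_mul_of_nonneg_right (le_max_right _ _) hx

theorem weak {C : ℝ} (hC : 0 < C) (hU : Up3 C) (hO : S_OPAR) {ε : ℝ} (hε : 0 < ε) :
    Tendsto (fun n : ℕ => Plain.prob n (fun F => ∀ v, Plain.Largest n F v →
      (n : ℝ) ^ (4 / 3 - ε) < ((accessible n F v).card : ℝ) ∧
        ((accessible n F v).card : ℝ) < (n : ℝ) ^ (4 / 3 + ε))) atTop (𝓝 1) := by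
  rw [Metric.tendsto_atTop]
  intro δ hδ
  obtain ⟨c, K, N0, hc, hK, h⟩ := fixed_scale hC hU hO (show 0 < δ / 2 by linarith)
  have ht : Tendsto (fun n : ℕ => (n : ℝ) ^ ε) atTop atTop :=
    (tendsto_rpow_atTop hε).comp tendsto_natCast_atTop_atTop
  obtain ⟨N1, hN1⟩ := eventually_atTop.1 (ht.eventually_gt_atTop (max (1 / c) K))
  refine ⟨max N0 (max N1 1), fun n hn => ?_⟩
  have hn0 : N0 ≤ n := (le_max_left _ _).trans hn
  have hn1 : N1 ≤ n := ((le_max_left _ _).trans (le_max_right _ _)).trans hn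
  have hn2 : 1 ≤ n := ((le_max_right _ _).trans (le_max_right _ _)).trans hn
  have hnR : (0:ℝ) < n := by exact_mod_cast hn2
  have hg := hN1 n hn1
  have hg1 : 1 / c < (n:ℝ) ^ ε := lt_of_le_of_lt (le_max_left _ _) hg
  have hg2 : K < (n:ℝ) ^ ε := lt_of_le_of_lt (le_max_right _ _) hg
  have hup : Plain.prob n (fun F => ∀ v, Plain.Largest n F v →
      (n : ℝ) ^ (4 / 3 - ε) < ((accessible n F v).card : ℝ) ∧
        ((accessible n F v).card : ℝ) < (n : ℝ) ^ (4 / 3 + ε)) ≤ 1 := by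
    rw [Plain.prob_eq]
    exact Pr_le_one hok _ _
  have hlo : 1 - δ / 2 ≤ Plain.prob n (fun F => ∀ v, Plain.Largest n F v →
      (n : ℝ) ^ (4 / 3 - ε) < ((accessible n F v).card : ℝ) ∧
        ((accessible n F v).card : ℝ) < (n : ℝ) ^ (4 / 3 + ε)) := by
    apply prob_ge
    refine le_trans (Pr_mono hok ?_) (h n hn0 1 le_rfl hn2)
    intro F _ hF hcon
    apply hF
    intro v hv
    obtain ⟨g1, g2⟩ := hcon v hv
    unfold NM at g1 g2
    rw [squares_one, Nat.cast_one, div_one] at g1 g2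
    have h43 : (0:ℝ) < (n:ℝ) ^ (4/3 : ℝ) := by positivity
    have he : (0:ℝ) < (n:ℝ) ^ ε := by positivity
    constructor
    · refine lt_of_lt_of_le ?_ g1
      rw [Real.rpow_sub hnR, div_lt_iff₀ he]
      have h1 : 1 < c * (n:ℝ) ^ ε := by
        rw [div_lt_iff₀ hc] at hg1
        linarith
      nlinarith
    · refine lt_of_le_of_lt g2 ?_
      rw [Real.rpow_add hnR]
      nlinarith
  rw [Real.dist_eq, abs_lt]
  constructor <;> linarith

end Pool.Agent.W5h17.AC
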