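import Pool.Agent.Y997.OBL.Defs
import Pool.Agent.W424.OD.Cnt

/-!
Accessible vertices: from the vertices with thick paths to the accessible vertices.
-/

set_option autoImplicit false

namespace Pool.Agent.W5h17.AC
open H974 H12S Finset H389NS H984P H984N H342P
open Pool.Agent.W424.OD
open Pool.Agent.Y997.OBL (ThO KeO CV RTh EnV)

theorem row_reach {a b c d y : ℤ} (hy : c ≤ y ∧ y ≤ d) {x : ℤ} (hx : a ≤ x) :
    ∀ k : ℕ, x + k ≤ b → Reach (↑(RE a b c d) : Set Edg) (x, y) (x + k, y) := by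
  intro k
  induction k with
  | zero =>
    intro _
    rw [Nat.cast_zero, add_zero]
    exact Reach.refl _ _
  | succ k ih =>
    intro h
    push_cast at h
    refine (ih (by omega)).trans (Adj.reach ⟨(x + k, y, true), ?_, Or.inl ⟨rfl, ?_⟩⟩)
    · rw [Finset.mem_coe, mem_RE_true]
      omega
    · rw [tgt_true]
      push_cast
      rw [add_assoc]

theorem col_reach {a b c d x : ℤ} (hx : a ≤ x ∧ x ≤ b) {y : ℤ} (hy : c ≤ y) :
    ∀ k : ℕ, y + k ≤ d → Reach (↑(RE a b c d) : Set Edg) (x, y) (x, y + k) := by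
  intro k
  induction k with
  | zero =>
    intro _
    rw [Nat.cast_zero, add_zero]
    exact Reach.refl _ _
  | succ k ih =>
    intro h
    push_cast at h
    refine (ih (by omega)).trans (Adj.reach ⟨(x, y + k, false), ?_, Or.inl ⟨rfl, ?_⟩⟩)
    · rw [Finset.mem_coe, mem_RE_false]
      omega
    · rw [tgt_false]
      push_cast
      rw [add_assoc]

theorem box_conn {a b c d : ℤ} {u v : Vtx} (hu : inR a b c d u) (hv : inR a b c d v) :
    Reach (↑(RE a b c d) : Set Edg) u v := by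
  obtain ⟨u1, u2⟩ := u
  obtain ⟨v1, v2⟩ := v
  unfold inR at hu hv
  simp only at hu hv
  have h1 : Reach (↑(RE a b c d) : Set Edg) (u1, u2) (v1, u2) := by
    rcases le_total u1 v1 with h | h
    · have h2 := row_reach (a := a) (b := b) (c := c) (d := d) (y := u2) hu.2 hu.1.1
        (v1 - u1).toNat (by omega)
      have e : u1 + ((v1 - u1).toNat : ℤ) = v1 := by omega
      rwa [e] at h2
    · have h2 := row_reach (a := a) (b := b) (c := c) (d := d) (y := u2) hu.2 hv.1.1
        (u1 - v1).toNat (by omega)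
      have e : v1 + ((u1 - v1).toNat : ℤ) = u1 := by omega
      rw [e] at h2
      exact h2.symm
  have h3 : Reach (↑(RE a b c d) : Set Edg) (v1, u2) (v1, v2) := by
    rcases le_total u2 v2 with h | h
    · have h2 := col_reach (a := a) (b := b) (c := c) (d := d) (x := v1) hv.1 hu.2.1
        (v2 - u2).toNat (by omega)
      have e : u2 + ((v2 - u2).toNat : ℤ) = v2 := by omega
      rwa [e] at h2
    · have h2 := col_reach (a := a) (b := b) (c := c) (d := d) (x := v1) hv.1 hv.2.1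
        (u2 - v2).toNat (by omega)
      have e : v2 + ((u2 - v2).toNat : ℤ) = u2 := by omega
      rw [e] at h2
      exact h2.symm
  exact h1.trans h3

theorem last_exit {G : Set Edg} {C : Set Vtx} {w x : Vtx} (h : Reach G w x) (hw : w ∈ C)
    (hx : x ∉ C) : ∃ u p, u ∈ C ∧ p ∉ C ∧ Adj G u p ∧
      Reach {e | src e ∉ C ∧ tgt e ∉ C} p x := by
  have key : ∀ a, Relation.ReflTransGen (Adj G) a x →
      (a ∉ C ∧ Reach {e | src e ∉ C ∧ tgt e ∉ C} a x) ∨
      ∃ u p, u ∈ C ∧ p ∉ C ∧ Adj G u p ∧ Reach {e | src e ∉ C ∧ tgt e ∉ C} p x := by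
    intro a ha
    induction ha using Relation.ReflTransGen.head_induction_on with
    | refl => exact Or.inl ⟨hx, Reach.refl _ _⟩
    | @head a b hab _ ih =>
      rcases ih with ⟨hb, hr⟩ | ih
      · by_cases ha : a ∈ C
        · exact Or.inr ⟨a, b, ha, hb, hab, hr⟩
        · left
          refine ⟨ha, (Adj.reach ?_).trans hr⟩
          obtain ⟨e, -, hc⟩ := hab
          refine ⟨e, ?_, hc⟩
          rcases hc with ⟨h1, h2⟩ | ⟨h1, h2⟩
          · exact ⟨by rw [h1]; exact ha, by rw [h2]; exact hb⟩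
          · exact ⟨by rw [h1]; exact hb, by rw [h2]; exact ha⟩
      · exact Or.inr ih
  rcases key w h with h1 | h1
  · exact absurd hw h1.1
  · exact h1

theorem avoid_of_reach {C : Set Vtx} {p q : Vtx} (h : Reach {e | src e ∉ C ∧ tgt e ∉ C} p q) :
    (avoidGraph C).Reachable p q := by
  rw [SimpleGraph.reachable_iff_reflTransGen]
  refine Relation.ReflTransGen.mono ?_ _ _ h
  intro a b hab
  unfold avoidGraph
  rw [SimpleGraph.fromRel_adj]
  obtain ⟨e, ⟨h3, h4⟩, ⟨h1, h2⟩ | ⟨h1, h2⟩⟩ := hab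
  · rw [h1] at h3
    rw [h2] at h4
    rw [← Plain.fst_eq] at h1
    rw [← Plain.snd_eq] at h2
    refine ⟨?_, Or.inl ⟨⟨e, h1, h2⟩, h3, h4⟩⟩
    rw [← h1, ← h2]
    exact Plain.fst_ne_snd e
  · rw [h1] at h3
    rw [h2] at h4
    rw [← Plain.fst_eq] at h1
    rw [← Plain.snd_eq] at h2
    refine ⟨?_, Or.inr ⟨⟨e, h1, h2⟩, h3, h4⟩⟩
    rw [← h1, ← h2]
    exact (Plain.fst_ne_snd e).symm

theorem box_of_reach {n : ℕ} {F : Finset Edg} (hF : F ⊆ RE 0 n 0 n) {v c : Vtx}
    (hv : inR 0 n 0 n v) (h : Reach (↑F : Set Edg) v c) : inR 0 n 0 n c := by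
  induction h with
  | refl => exact hv
  | tail _ hs _ =>
    obtain ⟨e, he, hc⟩ := hs
    have h2 := H731C.RE_ends (hF (Finset.mem_coe.1 he))
    rcases hc with ⟨h3, h4⟩ | ⟨h3, h4⟩
    · rw [← h4]; exact h2.2
    · rw [← h3]; exact h2.1

theorem sd_self (x : Vtx) : sd x x = 0 := by
  unfold sd
  simp

theorem keo_not {M B n : ℕ} {w : Vtx} {C : Set Vtx} {x : Vtx} (h : KeO M B n w C x) : x ∉ C := by
  intro hx
  have h1 := h x hx
  rw [sd_self, mul_zero] at h1
  have h2 : (0:ℤ) ≤ (min (sd x w) (n:ℤ)) ^ B := by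
    apply pow_nonneg
    apply le_min
    · unfold sd
      exact (abs_nonneg _).trans (le_max_left _ _)
    · positivity
  linarith

theorem cluster_eq (F : Finset Plain.Edge) (v : ℤ × ℤ) :
    Plain.cluster F v = {c | Reach (↑F : Set Edg) v c} := by
  ext c
  exact Plain.mem_cluster F v c

/-- A thick path gives an accessible vertex nearby. -/
theorem acc_of_thick {M B n : ℕ} {F : Finset Edg} (hn : 1 ≤ n) (hF : F ⊆ RE 0 n 0 n) {v w : Vtx}
    (hv : inR 0 n 0 n v) (hw : Reach (↑F : Set Edg) v w)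
    (hT : ThO M B n (CV (↑F : Set Edg) v) w) :
    ∃ u ∈ accessible n F v, BX w 2 u := by
  classical
  obtain ⟨x, hx, y, hy, hxy⟩ := hT
  set C : Set Vtx := CV (↑F : Set Edg) v with hC
  have hCC : Plain.cluster F v = C := cluster_eq F v
  have hCb : ∀ c ∈ C, inR 0 n 0 n c := fun c hc => box_of_reach hF hv hc
  have hwC : w ∈ C := hw
  have hav : Reach {e | src e ∉ C ∧ tgt e ∉ C} x y := by
    refine Reach.mono ?_ hxy
    rintro e ⟨h1, h2⟩
    exact ⟨keo_not h1, keo_not h2⟩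
  have hn' : (1:ℤ) ≤ n := by exact_mod_cast hn
  have hyb : ¬ inR 0 n 0 n y := by
    intro h
    unfold inR at h
    unfold sd at hy
    have h1 : |y.1 - ((0, 0) : Vtx).1| ≤ n := by
      rw [abs_le]; simp only; constructor <;> omega
    have h2 : |y.2 - ((0, 0) : Vtx).2| ≤ n := by
      rw [abs_le]; simp only; constructor <;> omega
    have h3 := max_le h1 h2
    linarith
  have hyC : y ∉ C := fun h => hyb (hCb y h)
  have hxC : x ∉ C := by
    rcases Relation.ReflTransGen.cases_head hav with h | ⟨z, ⟨e, ⟨h1, h2⟩, hc⟩, -⟩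
    · rw [h]; exact hyC
    · rcases hc with ⟨h3, -⟩ | ⟨-, h4⟩
      · rw [← h3]; exact h1
      · rw [← h4]; exact h2
  have hxB : BX w 2 x := (mem_bdB_iff.1 hx).1
  have hwB : BX w 2 w := by unfold BX inR; omega
  have hwx : Reach (↑(RE (w.1 - (2:ℕ)) (w.1 + (2:ℕ)) (w.2 - (2:ℕ)) (w.2 + (2:ℕ))) : Set Edg) w x :=
    box_conn hwB hxB
  obtain ⟨u, p, hu, hp, ⟨e, he, hc⟩, hpx⟩ := last_exit hwx hwC hxC
  have h2 := H731C.RE_ends (Finset.mem_coe.1 he)
  refine ⟨u, ?_, ?_⟩
  · unfold accessible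
    rw [Finset.mem_filter]
    have hub := hCb u hu
    refine ⟨?_, ?_, e, p, y, ?_, ?_, ?_, ?_⟩
    · unfold Plain.box
      rw [Finset.mem_product, Finset.mem_Icc, Finset.mem_Icc]
      unfold inR at hub
      omega
    · rw [hCC]; exact hu
    · rw [Plain.fst_eq, Plain.snd_eq]
      rcases hc with ⟨h3, h4⟩ | ⟨h3, h4⟩
      · exact Or.inl ⟨h3, h4⟩
      · exact Or.inr ⟨h3, h4⟩
    · rw [hCC]; exact hp
    · intro hyb'
      apply hyb
      unfold Plain.box at hyb'
      rw [Finset.mem_product, Finset.mem_Icc, Finset.mem_Icc] at hyb'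
      unfold inR
      omega
    · rw [hCC]
      exact avoid_of_reach (hpx.trans hav)
  · unfold BX
    rcases hc with ⟨h3, h4⟩ | ⟨h3, h4⟩
    · rw [← h3]; exact h2.1
    · rw [← h4]; exact h2.2

/-- Many vertices with thick paths give many accessible vertices. -/
theorem card_of_RTh {t c E : ℝ} {M B n : ℕ} {F : Finset Edg} (hn : 1 ≤ n) (hF : F ⊆ RE 0 n 0 n)
    {v : Vtx} (hv : inR 0 n 0 n v) (h : RTh t c E M B n v (↑F : Set Edg)) :
    c / 25 * (n : ℝ) ^ (4 / 3 : ℝ) ≤ ((accessible n F v).card : ℝ) := by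
  classical
  obtain ⟨V, hV, -, hV2⟩ := h
  have hsub : V ⊆ (accessible n F v).biUnion
      (fun u => Finset.Icc (u.1 - 2) (u.1 + 2) ×ˢ Finset.Icc (u.2 - 2) (u.2 + 2)) := by
    intro w hw
    obtain ⟨h1, h2⟩ := hV2 w hw
    obtain ⟨u, hu, huw⟩ := acc_of_thick hn hF hv h1 h2
    rw [Finset.mem_biUnion]
    refine ⟨u, hu, ?_⟩
    unfold BX inR at huw
    rw [Finset.mem_product, Finset.mem_Icc, Finset.mem_Icc]
    push_cast at huw
    omega
  have h1 := Finset.card_le_card hsub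
  have h2 := Finset.card_biUnion_le_card_mul (accessible n F v)
    (fun u => Finset.Icc (u.1 - 2) (u.1 + 2) ×ˢ Finset.Icc (u.2 - 2) (u.2 + 2)) 25 (by
      intro u _
      rw [Finset.card_product, Int.card_Icc, Int.card_Icc]
      have e1 : (u.1 + 2 + 1 - (u.1 - 2)).toNat = 5 := by omega
      have e2 : (u.2 + 2 + 1 - (u.2 - 2)).toNat = 5 := by omega
      rw [e1, e2])
  have h3 : (V.card : ℝ) ≤ ((accessible n F v).card : ℝ) * 25 := by exact_mod_cast h1.trans h2
  linarith

end Pool.Agent.W5h17.AC
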