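import Pool.Agent.W5h17.AC.Up
import Pool.Agent.W801.AV.T_TWO
import Pool.Agent.W801.AV.T_LOC

/-!
Accessible vertices: two-point bound and local second moment away from the boundary (adapted from
`Pool.Agent.W801.AV.T_TWO` and `T_LOC`).
-/

set_option autoImplicit false

namespace Pool.Agent.W5h17.AC
open H974 H12S Finset H389NS H984P H984N H342P
open Pool.Agent.W424.OD
open Pool.Agent.W801.AV.TTWO (locF sup_bd disj_blk)
open Pool.Agent.W801.AV.TLOC (rr rr_cast side_card)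

/-- Three arms around `w` in all annuli of radius at most `b`. -/
def TT (w : ℤ × ℤ) (b : ℕ) (F : Set Edg) : Prop :=
  ∀ a k : ℕ, 1 ≤ a → a ≤ k → k ≤ b → A3v w a k F

theorem TT_of_acc {n M b : ℕ} {F : Finset Plain.Edge} {v w : ℤ × ℤ}
    (hm : IsMax n (↑F : Set Edg) v) (hb : Big n ((M:ℤ) + 1) (↑F : Set Edg))
    (h : Accessible n F v w) (hbM : b ≤ M) (hbd : (b:ℤ) ≤ bdist n w) : TT w b (↑F : Set Edg) := by
  intro a k ha hak hkb
  have ha' : (1:ℤ) ≤ a := by exact_mod_cast ha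
  have hkb' : (k:ℤ) ≤ b := by exact_mod_cast hkb
  have hbM' : (b:ℤ) ≤ M := by exact_mod_cast hbM
  exact acc_arm (M := (M:ℤ)) hm hb h ha hak ⟨le_rfl, by linarith⟩ ⟨le_rfl, by linarith⟩
    (by linarith) (by linarith)

theorem two_pt {C : ℝ} (hC : 0 < C) (hU : Up3 C) {κ n b r : ℕ} {v w : ℤ × ℤ} (hb6 : 6 ≤ b)
    (hκ : n ≤ κ * b) (hrn : r ≤ n) (hv : (b:ℤ) ≤ bdist n v) (hw : (b:ℤ) ≤ bdist n w)
    (hr : 1 ≤ r) (hrm : (r : ℤ) = max |v.1 - w.1| |v.2 - w.2|) :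
    Pr (fun _ => (1 / 2 : ℝ)) (RE 0 n 0 n) (fun F => TT v b (↑F : Set Edg) ∧ TT w b (↑F : Set Edg))
      ≤ (1 + C) ^ 3 * (200 * (κ:ℝ) ^ 2 / (r * n)) ^ (2/3 : ℝ) := by
  obtain ⟨⟨s1, s2, s3, s4⟩, s5⟩ := sup_bd hrm
  have hrR : (1 : ℝ) ≤ r := by exact_mod_cast hr
  have hr0 : (0 : ℝ) < r := by linarith
  have hrnR : (r : ℝ) ≤ n := by exact_mod_cast hrn
  have hn0 : (0 : ℝ) < n := by linarith
  have hκ1 : 1 ≤ κ := by
    rcases Nat.eq_zero_or_pos κ with h | h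
    · rw [h, Nat.zero_mul] at hκ; omega
    · exact h
  have hκR : (1 : ℝ) ≤ κ := by exact_mod_cast hκ1
  have hκb : (n : ℝ) ≤ κ * b := by exact_mod_cast hκ
  have hbR : (6 : ℝ) ≤ b := by exact_mod_cast hb6
  have hb0 : (0 : ℝ) < b := by linarith
  have hC1 : C ≤ (1 + C) ^ 3 := by nlinarith [mul_pos hC hC, mul_pos (mul_pos hC hC) hC]
  have hC2 : C ^ 2 ≤ (1 + C) ^ 3 := by nlinarith [mul_pos hC hC, mul_pos (mul_pos hC hC) hC]
  have hC3 : C ^ 3 ≤ (1 + C) ^ 3 := by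
    apply pow_le_pow_left₀ hC.le
    linarith
  have mono : ∀ x : ℝ, 0 ≤ x → x ≤ 200 * (κ:ℝ) ^ 2 / (r * n) →
      x ^ (2/3 : ℝ) ≤ (200 * (κ:ℝ) ^ 2 / (r * n)) ^ (2/3 : ℝ) := fun x h0 h1 =>
    Real.rpow_le_rpow h0 h1 (by norm_num)
  have hsv : blk v b ⊆ RE 0 n 0 n := blk_sub hv
  by_cases hr3 : r < 3
  · -- one event
    have h1 := hU v 1 b le_rfl (by omega) (RE 0 n 0 n) hsv
    have h2 : Pr (fun _ => (1 / 2 : ℝ)) (RE 0 n 0 n)
        (fun F => TT v b (↑F : Set Edg) ∧ TT w b (↑F : Set Edg)) ≤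
        PQ (1 / 2) (RE 0 n 0 n) (fun F => A3v v 1 b (↑F : Set Edg)) := by
      apply Pr_mono hok
      rintro F _ ⟨hF, -⟩
      exact hF 1 b le_rfl (by omega) le_rfl
    have hr2 : (r : ℝ) ≤ 2 := by
      have : r ≤ 2 := by omega
      exact_mod_cast this
    have h3 := mono (((1 : ℕ) : ℝ) / b) (by positivity) (by
      rw [div_le_div_iff₀ hb0 (by positivity)]
      push_cast
      have g1 : (r:ℝ) * n ≤ 2 * (κ * b) := by
        calc (r:ℝ) * n ≤ 2 * n := by gcongr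
          _ ≤ _ := by gcongr
      have g2 : (κ:ℝ) ≤ κ ^ 2 := by nlinarith
      have g3 : (κ:ℝ) * b ≤ κ ^ 2 * b := by gcongr
      have g4 : 0 ≤ (κ:ℝ) ^ 2 * b := by positivity
      nlinarith)
    refine (h2.trans h1).trans ?_
    exact mul_le_mul hC1 h3 (by positivity) (by positivity)
  · by_cases hr5 : 2 * r ≤ b
    · -- three events
      obtain ⟨k1, hk1⟩ : ∃ k1 : ℕ, k1 = r / 3 := ⟨_, rfl⟩
      have hk1r : (r : ℝ) ≤ 5 * k1 := by
        have : r ≤ 5 * k1 := by omega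
        exact_mod_cast this
      have hk10 : (0 : ℝ) < k1 := by linarith
      have hk1b : k1 ≤ b := by omega
      have hk1b' : (k1:ℤ) ≤ b := by exact_mod_cast hk1b
      have hs1 : blk v k1 ⊆ RE 0 n 0 n := blk_sub (hk1b'.trans hv)
      have hs2 : blk w k1 ⊆ RE 0 n 0 n := blk_sub (hk1b'.trans hw)
      have hd12 : Disjoint (blk v k1) (blk w k1) := disj_blk (by omega) s5
      have h1 := hU v 1 k1 le_rfl (by omega) (RE 0 n 0 n) hs1
      have h1' := hU w 1 k1 le_rfl (by omega) (RE 0 n 0 n) hs2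
      have hA1 : ∀ F, F ⊆ RE 0 n 0 n → (A3v v 1 k1 (↑F : Set Edg) ↔
          A3v v 1 k1 (↑(F ∩ blk v k1) : Set Edg)) := fun F _ => locF Finset.sdiff_subset F
      have hA2 : ∀ F, F ⊆ RE 0 n 0 n → (A3v w 1 k1 (↑F : Set Edg) ↔
          A3v w 1 k1 (↑(F ∩ blk w k1) : Set Edg)) := fun F _ => locF Finset.sdiff_subset F
      have h3 := hU v (2 * r) b (by omega) (by omega) (RE 0 n 0 n) hsv
      have hT3 : blk v b \ blk v (2 * r) ⊆ RE 0 n 0 n := Finset.sdiff_subset.trans hsv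
      have sub1 : blk v k1 ⊆ blk v (2 * r) := by
        unfold blk
        apply RE_subset <;> push_cast <;> omega
      have sub2 : blk w k1 ⊆ blk v (2 * r) := by
        unfold blk
        apply RE_subset <;> push_cast <;> omega
      have hd13 : Disjoint (blk v k1) (blk v b \ blk v (2 * r)) :=
        Finset.disjoint_of_subset_left sub1 Finset.disjoint_sdiff
      have hd23 : Disjoint (blk w k1) (blk v b \ blk v (2 * r)) :=
        Finset.disjoint_of_subset_left sub2 Finset.disjoint_sdiff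
      have hA3 : ∀ F, F ⊆ RE 0 n 0 n → (A3v v (2 * r) b (↑F : Set Edg) ↔
          A3v v (2 * r) b (↑(F ∩ (blk v b \ blk v (2 * r))) : Set Edg)) := fun F _ =>
        locF (Finset.Subset.refl _) F
      have i2 := Pr_indep (p := fun _ => (1 / 2 : ℝ)) hs2 hT3 hd23
        (A := fun F => A3v w 1 k1 (↑F : Set Edg)) (B := fun F => A3v v (2 * r) b (↑F : Set Edg))
        hA2 hA3
      have hA23 : ∀ F, F ⊆ RE 0 n 0 n →
          ((A3v w 1 k1 (↑F : Set Edg) ∧ A3v v (2 * r) b (↑F : Set Edg)) ↔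
          (A3v w 1 k1 (↑(F ∩ (blk w k1 ∪ (blk v b \ blk v (2 * r)))) : Set Edg) ∧
            A3v v (2 * r) b (↑(F ∩ (blk w k1 ∪ (blk v b \ blk v (2 * r)))) : Set Edg))) := by
        intro F _
        exact and_congr
          (locF (Finset.sdiff_subset.trans Finset.subset_union_left) F)
          (locF Finset.subset_union_right F)
      have i1 := Pr_indep (p := fun _ => (1 / 2 : ℝ)) hs1 (Finset.union_subset hs2 hT3)
        (Finset.disjoint_union_right.2 ⟨hd12, hd13⟩)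
        (A := fun F => A3v v 1 k1 (↑F : Set Edg))
        (B := fun F => A3v w 1 k1 (↑F : Set Edg) ∧ A3v v (2 * r) b (↑F : Set Edg))
        hA1 hA23
      have h2 : Pr (fun _ => (1 / 2 : ℝ)) (RE 0 n 0 n)
          (fun F => TT v b (↑F : Set Edg) ∧ TT w b (↑F : Set Edg)) ≤
          Pr (fun _ => (1 / 2 : ℝ)) (RE 0 n 0 n) (fun F => A3v v 1 k1 (↑F : Set Edg) ∧
            (A3v w 1 k1 (↑F : Set Edg) ∧ A3v v (2 * r) b (↑F : Set Edg))) := by
        apply Pr_mono hok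
        rintro F _ ⟨hF, hF'⟩
        exact ⟨hF 1 k1 le_rfl (by omega) hk1b, hF' 1 k1 le_rfl (by omega) hk1b,
          hF (2 * r) b (by omega) hr5 le_rfl⟩
      rw [i1, i2] at h2
      have h4 := mono ((((1 : ℕ) : ℝ) / k1) * ((((1 : ℕ) : ℝ) / k1) *
        (((2 * r : ℕ) : ℝ) / b))) (by positivity) (by
          push_cast
          have e1 : (1 : ℝ) / k1 ≤ 5 / r := by
            rw [div_le_div_iff₀ hk10 hr0]; linarith
          have e2 : (2 * (r : ℝ)) / b ≤ 2 * r * κ / n := by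
            rw [div_le_div_iff₀ hb0 hn0]
            have := mul_le_mul_of_nonneg_left hκb (show (0:ℝ) ≤ 2 * r by positivity)
            linarith
          have e3 : (1 : ℝ) / k1 * (1 / k1 * (2 * r / b)) ≤ 5 / r * (5 / r * (2 * r * κ / n)) := by
            gcongr
          refine e3.trans ?_
          have e4 : 5 / (r:ℝ) * (5 / r * (2 * r * κ / n)) = 50 * κ / (r * n) := by
            field_simp
            ring
          rw [e4]
          apply div_le_div_of_nonneg_right _ (by positivity)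
          nlinarith)
      rw [Real.mul_rpow (by positivity) (by positivity),
        Real.mul_rpow (by positivity) (by positivity)] at h4
      refine h2.trans ?_
      have h5 : Pr (fun _ => (1 / 2 : ℝ)) (RE 0 n 0 n) (fun F => A3v v 1 k1 (↑F : Set Edg)) *
          (Pr (fun _ => (1 / 2 : ℝ)) (RE 0 n 0 n) (fun F => A3v w 1 k1 (↑F : Set Edg)) *
          Pr (fun _ => (1 / 2 : ℝ)) (RE 0 n 0 n) (fun F => A3v v (2 * r) b (↑F : Set Edg))) ≤
          (C * (((1 : ℕ) : ℝ) / k1) ^ (2 / 3 : ℝ)) * ((C * (((1 : ℕ) : ℝ) / k1) ^ (2 / 3 : ℝ)) *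
          (C * (((2 * r : ℕ) : ℝ) / b) ^ (2 / 3 : ℝ))) := by
        refine mul_le_mul h1 (mul_le_mul h1' h3 (Pr_nonneg hok _ _) (by positivity))
          (mul_nonneg (Pr_nonneg hok _ _) (Pr_nonneg hok _ _)) (by positivity)
      refine h5.trans ?_
      calc (C * (((1 : ℕ) : ℝ) / k1) ^ (2 / 3 : ℝ)) * ((C * (((1 : ℕ) : ℝ) / k1) ^ (2 / 3 : ℝ)) *
          (C * (((2 * r : ℕ) : ℝ) / b) ^ (2 / 3 : ℝ)))
          = C ^ 3 * ((((1 : ℕ) : ℝ) / k1) ^ (2 / 3 : ℝ) * ((((1 : ℕ) : ℝ) / k1) ^ (2 / 3 : ℝ) *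
            (((2 * r : ℕ) : ℝ) / b) ^ (2 / 3 : ℝ))) := by ring
        _ ≤ _ := by
          apply mul_le_mul hC3 h4 (by positivity) (by positivity)
    · -- two events
      obtain ⟨k1, hk1⟩ : ∃ k1 : ℕ, k1 = b / 6 := ⟨_, rfl⟩
      have hk1r : (b : ℝ) ≤ 12 * k1 := by
        have : b ≤ 12 * k1 := by omega
        exact_mod_cast this
      have hk10 : (0 : ℝ) < k1 := by linarith
      have hk1b : k1 ≤ b := by omega
      have hk1b' : (k1:ℤ) ≤ b := by exact_mod_cast hk1b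
      have hs1 : blk v k1 ⊆ RE 0 n 0 n := blk_sub (hk1b'.trans hv)
      have hs2 : blk w k1 ⊆ RE 0 n 0 n := blk_sub (hk1b'.trans hw)
      have hd12 : Disjoint (blk v k1) (blk w k1) := disj_blk (by omega) s5
      have h1 := hU v 1 k1 le_rfl (by omega) (RE 0 n 0 n) hs1
      have h1' := hU w 1 k1 le_rfl (by omega) (RE 0 n 0 n) hs2
      have hA1 : ∀ F, F ⊆ RE 0 n 0 n → (A3v v 1 k1 (↑F : Set Edg) ↔
          A3v v 1 k1 (↑(F ∩ blk v k1) : Set Edg)) := fun F _ => locF Finset.sdiff_subset F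
      have hA2 : ∀ F, F ⊆ RE 0 n 0 n → (A3v w 1 k1 (↑F : Set Edg) ↔
          A3v w 1 k1 (↑(F ∩ blk w k1) : Set Edg)) := fun F _ => locF Finset.sdiff_subset F
      have i1 := Pr_indep (p := fun _ => (1 / 2 : ℝ)) hs1 hs2 hd12
        (A := fun F => A3v v 1 k1 (↑F : Set Edg))
        (B := fun F => A3v w 1 k1 (↑F : Set Edg)) hA1 hA2
      have h2 : Pr (fun _ => (1 / 2 : ℝ)) (RE 0 n 0 n)
          (fun F => TT v b (↑F : Set Edg) ∧ TT w b (↑F : Set Edg)) ≤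
          Pr (fun _ => (1 / 2 : ℝ)) (RE 0 n 0 n) (fun F => A3v v 1 k1 (↑F : Set Edg) ∧
            A3v w 1 k1 (↑F : Set Edg)) := by
        apply Pr_mono hok
        rintro F _ ⟨hF, hF'⟩
        exact ⟨hF 1 k1 le_rfl (by omega) hk1b, hF' 1 k1 le_rfl (by omega) hk1b⟩
      rw [i1] at h2
      have h4 := mono ((((1 : ℕ) : ℝ) / k1) * (((1 : ℕ) : ℝ) / k1))
        (by positivity) (by
          push_cast
          have e1 : (1 : ℝ) / k1 ≤ 12 * κ / n := by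
            rw [div_le_div_iff₀ hk10 hn0]
            have := mul_le_mul_of_nonneg_left hk1r (show (0:ℝ) ≤ κ by positivity)
            linarith
          have e3 : (1 : ℝ) / k1 * (1 / k1) ≤ 12 * κ / n * (12 * κ / n) := by
            gcongr
          refine e3.trans ?_
          rw [div_mul_div_comm, div_le_div_iff₀ (by positivity) (by positivity)]
          have g1 : (r : ℝ) * n ≤ n * n := by gcongr
          have g2 : 12 * (κ:ℝ) * (12 * κ) * (r * n) ≤ 12 * (κ:ℝ) * (12 * κ) * (n * n) := by gcongr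
          have g3 : 0 ≤ (κ:ℝ) ^ 2 * (n * n) := by positivity
          nlinarith)
      rw [Real.mul_rpow (by positivity) (by positivity)] at h4
      refine h2.trans ?_
      have h5 : Pr (fun _ => (1 / 2 : ℝ)) (RE 0 n 0 n) (fun F => A3v v 1 k1 (↑F : Set Edg)) *
          Pr (fun _ => (1 / 2 : ℝ)) (RE 0 n 0 n) (fun F => A3v w 1 k1 (↑F : Set Edg)) ≤
          (C * (((1 : ℕ) : ℝ) / k1) ^ (2 / 3 : ℝ)) *
            (C * (((1 : ℕ) : ℝ) / k1) ^ (2 / 3 : ℝ)) :=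
        mul_le_mul h1 h1' (Pr_nonneg hok _ _) (by positivity)
      refine h5.trans ?_
      calc (C * (((1 : ℕ) : ℝ) / k1) ^ (2 / 3 : ℝ)) * (C * (((1 : ℕ) : ℝ) / k1) ^ (2 / 3 : ℝ))
          = C ^ 2 * ((((1 : ℕ) : ℝ) / k1) ^ (2 / 3 : ℝ) * (((1 : ℕ) : ℝ) / k1) ^ (2 / 3 : ℝ)) := by
            ring
        _ ≤ _ := by
          apply mul_le_mul hC2 h4 (by positivity) (by positivity)

/-- numerical form -/
theorem two_pt' {C : ℝ} (hC : 0 < C) (hU : Up3 C) {κ n b r : ℕ} {v w : ℤ × ℤ} (hb6 : 6 ≤ b)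
    (hκ : n ≤ κ * b) (hrn : r ≤ n) (hv : (b:ℤ) ≤ bdist n v) (hw : (b:ℤ) ≤ bdist n w)
    (hr : 1 ≤ r) (hrm : (r : ℤ) = max |v.1 - w.1| |v.2 - w.2|) :
    Pr (fun _ => (1 / 2 : ℝ)) (RE 0 n 0 n) (fun F => TT v b (↑F : Set Edg) ∧ TT w b (↑F : Set Edg))
      ≤ (1 + C) ^ 3 * (200 * (κ:ℝ) ^ 2) * (r : ℝ) ^ (-(2 / 3 : ℝ)) * (n : ℝ) ^ (-(2 / 3 : ℝ)) := by
  refine (two_pt hC hU hb6 hκ hrn hv hw hr hrm).trans ?_
  have hr0 : (0 : ℝ) < r := by exact_mod_cast hr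
  have hrnR : (r : ℝ) ≤ n := by exact_mod_cast hrn
  have hn0 : (0 : ℝ) < n := by linarith
  have hκ1 : 1 ≤ κ := by
    rcases Nat.eq_zero_or_pos κ with h | h
    · rw [h, Nat.zero_mul] at hκ; omega
    · exact h
  have hκR : (1 : ℝ) ≤ κ := by exact_mod_cast hκ1
  have h200 : (1:ℝ) ≤ 200 * (κ:ℝ) ^ 2 := by nlinarith
  have h2 : (200 * (κ:ℝ) ^ 2 / (r * n)) ^ (2 / 3 : ℝ) =
      (200 * (κ:ℝ) ^ 2) ^ (2 / 3 : ℝ) * ((r:ℝ) ^ (-(2 / 3 : ℝ)) * (n:ℝ) ^ (-(2 / 3 : ℝ))) := by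
    rw [Real.div_rpow (by positivity) (by positivity), Real.mul_rpow hr0.le hn0.le,
      Real.rpow_neg hr0.le, Real.rpow_neg hn0.le]
    field_simp
  have h3 : (200 * (κ:ℝ) ^ 2) ^ (2 / 3 : ℝ) ≤ 200 * (κ:ℝ) ^ 2 := by
    calc (200 * (κ:ℝ) ^ 2) ^ (2 / 3 : ℝ) ≤ (200 * (κ:ℝ) ^ 2) ^ (1 : ℝ) :=
          Real.rpow_le_rpow_of_exponent_le h200 (by norm_num)
      _ = 200 * (κ:ℝ) ^ 2 := Real.rpow_one _
  have h4 : 0 ≤ (r:ℝ) ^ (-(2 / 3 : ℝ)) * (n:ℝ) ^ (-(2 / 3 : ℝ)) := by positivity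
  rw [h2]
  calc (1 + C) ^ 3 * ((200 * (κ:ℝ) ^ 2) ^ (2 / 3 : ℝ) *
        ((r:ℝ) ^ (-(2 / 3 : ℝ)) * (n:ℝ) ^ (-(2 / 3 : ℝ))))
      ≤ (1 + C) ^ 3 * ((200 * (κ:ℝ) ^ 2) *
        ((r:ℝ) ^ (-(2 / 3 : ℝ)) * (n:ℝ) ^ (-(2 / 3 : ℝ)))) := by gcongr
    _ = _ := by ring

theorem one_pt {C : ℝ} (hC : 0 < C) (hU : Up3 C) {κ n b : ℕ} {v : ℤ × ℤ} (hb6 : 6 ≤ b)
    (hn : 1 ≤ n) (hκ : n ≤ κ * b) (hv : (b:ℤ) ≤ bdist n v) :
    Pr (fun _ => (1 / 2 : ℝ)) (RE 0 n 0 n) (fun F => TT v b (↑F : Set Edg)) ≤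
      C * κ * (n : ℝ) ^ (-(2 / 3 : ℝ)) := by
  have hn0 : (0 : ℝ) < n := by exact_mod_cast hn
  have hκ1 : 1 ≤ κ := by
    rcases Nat.eq_zero_or_pos κ with h | h
    · rw [h, Nat.zero_mul] at hκ; omega
    · exact h
  have hκR : (1 : ℝ) ≤ κ := by exact_mod_cast hκ1
  have hκb : (n : ℝ) ≤ κ * b := by exact_mod_cast hκ
  have hbR : (6 : ℝ) ≤ b := by exact_mod_cast hb6
  have hb0 : (0 : ℝ) < b := by linarith
  have h1 := hU v 1 b le_rfl (by omega) (RE 0 n 0 n) (blk_sub hv)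
  have h2 : Pr (fun _ => (1 / 2 : ℝ)) (RE 0 n 0 n) (fun F => TT v b (↑F : Set Edg)) ≤
      PQ (1 / 2) (RE 0 n 0 n) (fun F => A3v v 1 b (↑F : Set Edg)) := by
    apply Pr_mono hok
    intro F _ hF
    exact hF 1 b le_rfl (by omega) le_rfl
  refine (h2.trans h1).trans ?_
  have h3 : (((1:ℕ):ℝ) / b) ^ (2/3:ℝ) ≤ ((κ:ℝ) / n) ^ (2/3:ℝ) := by
    apply Real.rpow_le_rpow (by positivity) _ (by norm_num)
    rw [div_le_div_iff₀ hb0 hn0]
    push_cast
    linarith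
  have h4 : ((κ:ℝ) / n) ^ (2/3:ℝ) = (κ:ℝ) ^ (2/3:ℝ) * (n:ℝ) ^ (-(2/3:ℝ)) := by
    rw [Real.div_rpow (by positivity) (by positivity), Real.rpow_neg hn0.le]
    field_simp
  have h5 : (κ:ℝ) ^ (2/3:ℝ) ≤ κ := by
    calc (κ:ℝ) ^ (2 / 3 : ℝ) ≤ (κ:ℝ) ^ (1 : ℝ) :=
          Real.rpow_le_rpow_of_exponent_le hκR (by norm_num)
      _ = κ := Real.rpow_one _
  have h6 : 0 ≤ (n:ℝ) ^ (-(2/3:ℝ)) := by positivity
  calc C * (((1:ℕ):ℝ) / b) ^ (2/3:ℝ) ≤ C * ((κ:ℝ) ^ (2/3:ℝ) * (n:ℝ) ^ (-(2/3:ℝ))) := by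
        rw [← h4]; gcongr
    _ ≤ C * (κ * (n:ℝ) ^ (-(2/3:ℝ))) := by gcongr
    _ = _ := by ring

open Classical in
/-- The vertices at distance at least `b` from the boundary. -/
noncomputable def Bx (n b : ℕ) : Finset (ℤ × ℤ) := (Plain.box n).filter (fun w => (b:ℤ) ≤ bdist n w)

/-- The number of pairs at distance less than `m`. -/
noncomputable def ZZ (n m b : ℕ) (F : Set Edg) : ℝ :=
  ∑ v ∈ Bx n b, ∑ w ∈ (Bx n b).filter (fun w => |v.1 - w.1| < m ∧ |v.2 - w.2| < m),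
    ind (TT v b F ∧ TT w b F)

theorem ZZ_nonneg (n m b : ℕ) (F : Set Edg) : 0 ≤ ZZ n m b F :=
  Finset.sum_nonneg fun _ _ => Finset.sum_nonneg fun _ _ => ind_nonneg _

/-- local second moment -/
theorem ex_ZZ {C0 : ℝ} (hC0 : 0 < C0) (hU : Up3 C0) (κ : ℕ) (hκ1 : 1 ≤ κ) :
    ∃ A : ℝ, 0 < A ∧ ∀ n m b : ℕ, 6 ≤ b → n ≤ κ * b → 1 ≤ m → m ≤ n →
      Ex (fun _ => (1 / 2 : ℝ)) (RE 0 n 0 n) (fun F => ZZ n m b (↑F : Set Edg)) ≤
        A * ((n : ℝ) ^ (4 / 3 : ℝ) * (m : ℝ) ^ (4 / 3 : ℝ)) := by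
  have hκR : (1 : ℝ) ≤ κ := by exact_mod_cast hκ1
  obtain ⟨C, hCdef⟩ : ∃ C : ℝ, C = (1 + C0) ^ 3 * (200 * (κ:ℝ) ^ 2) := ⟨_, rfl⟩
  obtain ⟨C1, hC1def⟩ : ∃ C1 : ℝ, C1 = C0 * κ := ⟨_, rfl⟩
  have hC : 0 < C := by rw [hCdef]; positivity
  have hC1 : 0 < C1 := by rw [hC1def]; positivity
  refine ⟨4 * C1 + 48 * C, by positivity, ?_⟩
  intro n m b hb6 hκ hm hmn
  have hn1' : 1 ≤ n := by omega
  have hn1 : (1 : ℝ) ≤ n := by exact_mod_cast hn1'
  have hn0 : (0 : ℝ) < n := by linarith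
  have hm1 : (1 : ℝ) ≤ m := by exact_mod_cast hm
  have hm0 : (0 : ℝ) < m := by linarith
  obtain ⟨L, hLdef⟩ : ∃ L : ℝ, L = (n : ℝ) ^ (1 / 3 : ℝ) := ⟨_, rfl⟩
  obtain ⟨Q, hQdef⟩ : ∃ Q : ℝ, Q = (m : ℝ) ^ (1 / 3 : ℝ) := ⟨_, rfl⟩
  have hL1 : 1 ≤ L := by rw [hLdef]; exact Real.one_le_rpow hn1 (by norm_num)
  have hL0 : 0 < L := by linarith
  have hQ1 : 1 ≤ Q := by rw [hQdef]; exact Real.one_le_rpow hm1 (by norm_num)
  have hQ0 : 0 < Q := by linarith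
  have hL3 : L ^ 3 = n := by
    rw [hLdef, ← Real.rpow_natCast, ← Real.rpow_mul hn0.le]; norm_num
  have hQ3 : Q ^ 3 = m := by
    rw [hQdef, ← Real.rpow_natCast, ← Real.rpow_mul hm0.le]; norm_num
  have h43 : (n : ℝ) ^ (4 / 3 : ℝ) = L ^ 4 := by
    rw [hLdef, ← Real.rpow_natCast, ← Real.rpow_mul hn0.le]; norm_num
  have h43m : (m : ℝ) ^ (4 / 3 : ℝ) = Q ^ 4 := by
    rw [hQdef, ← Real.rpow_natCast, ← Real.rpow_mul hm0.le]; norm_num
  have hm23 : (n : ℝ) ^ (-(2 / 3 : ℝ)) = (L ^ 2)⁻¹ := by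
    rw [Real.rpow_neg hn0.le, hLdef, ← Real.rpow_natCast ((n : ℝ) ^ (1 / 3 : ℝ)) 2,
      ← Real.rpow_mul hn0.le]
    norm_num
  have hBx : ∀ v ∈ Bx n b, (0 ≤ v.1 ∧ v.1 ≤ n ∧ 0 ≤ v.2 ∧ v.2 ≤ n) ∧ (b:ℤ) ≤ bdist n v := by
    intro v hv
    unfold Bx Plain.box at hv
    rw [Finset.mem_filter, Finset.mem_product, Finset.mem_Icc, Finset.mem_Icc] at hv
    exact ⟨⟨hv.1.1.1, hv.1.1.2, hv.1.2.1, hv.1.2.2⟩, hv.2⟩
  have row : ∀ v ∈ Bx n b,
      ∑ w ∈ (Bx n b).filter (fun w => |v.1 - w.1| < m ∧ |v.2 - w.2| < m),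
      Pr (fun _ => (1 / 2 : ℝ)) (RE 0 n 0 n)
        (fun F => TT v b (↑F : Set Edg) ∧ TT w b (↑F : Set Edg)) ≤
        C1 * (L ^ 2)⁻¹ + 12 * C * Q ^ 4 * (L ^ 2)⁻¹ := by
    intro v hv
    obtain ⟨T, hT⟩ : ∃ T : Finset (ℤ × ℤ),
      T = (Bx n b).filter (fun w => |v.1 - w.1| < m ∧ |v.2 - w.2| < m) := ⟨_, rfl⟩
    have hvT : v ∈ T := by
      rw [hT, Finset.mem_filter]
      refine ⟨hv, ?_, ?_⟩
      · rw [sub_self, abs_zero]; exact_mod_cast hm
      · rw [sub_self, abs_zero]; exact_mod_cast hm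
    have hTm : ∀ w ∈ T, w ∈ Bx n b ∧ |v.1 - w.1| < m ∧ |v.2 - w.2| < m := by
      intro w hw
      rw [hT, Finset.mem_filter] at hw
      exact hw
    rw [← hT, ← Finset.add_sum_erase _ _ hvT]
    apply add_le_add
    · rw [← hm23, hC1def]
      refine le_trans ?_ (one_pt hC0 hU hb6 hn1' hκ (hBx v hv).2)
      exact Pr_mono hok (fun F _ h => h.1)
    · calc ∑ w ∈ T.erase v,
            Pr (fun _ => (1 / 2 : ℝ)) (RE 0 n 0 n)
              (fun F => TT v b (↑F : Set Edg) ∧ TT w b (↑F : Set Edg))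
          ≤ ∑ w ∈ T.erase v, C * (rr v w : ℝ) ^ (-(2 / 3 : ℝ)) *
            (n : ℝ) ^ (-(2 / 3 : ℝ)) := by
            apply Finset.sum_le_sum
            intro w hw
            rw [Finset.mem_erase] at hw
            have hw1 := hBx w (hTm w hw.2).1
            have hv1 := hBx v hv
            rw [hCdef]
            apply two_pt' hC0 hU hb6 hκ _ hv1.2 hw1.2
            · by_contra hcon
              apply hw.1
              unfold rr at hcon
              apply Prod.ext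
              · omega
              · omega
            · exact rr_cast v w
            · unfold rr
              omega
        _ = ∑ r ∈ Finset.Icc 1 m, ∑ w ∈ (T.erase v).filter (fun w => rr v w = r),
              C * (rr v w : ℝ) ^ (-(2 / 3 : ℝ)) * (n : ℝ) ^ (-(2 / 3 : ℝ)) := by
            symm
            apply Finset.sum_fiberwise_of_maps_to
            intro w hw
            rw [Finset.mem_erase] at hw
            have hb := (hTm w hw.2).2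
            rw [Finset.mem_Icc]
            constructor
            · by_contra hcon
              apply hw.1
              unfold rr at hcon
              apply Prod.ext
              · omega
              · omega
            · have h1 := abs_lt.1 hb.1
              have h2 := abs_lt.1 hb.2
              unfold rr
              omega
        _ ≤ ∑ r ∈ Finset.Icc 1 m, 12 * C * Q * (L ^ 2)⁻¹ := by
            apply Finset.sum_le_sum
            intro r hr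
            rw [Finset.mem_Icc] at hr
            have e1 : ∑ w ∈ (T.erase v).filter (fun w => rr v w = r),
                C * (rr v w : ℝ) ^ (-(2 / 3 : ℝ)) * (n : ℝ) ^ (-(2 / 3 : ℝ)) =
                (((T.erase v).filter (fun w => rr v w = r)).card : ℝ) *
                  (C * (r : ℝ) ^ (-(2 / 3 : ℝ)) * (L ^ 2)⁻¹) := by
              rw [← nsmul_eq_mul, ← Finset.sum_const]
              apply Finset.sum_congr rfl
              intro w hw
              rw [(Finset.mem_filter.1 hw).2, hm23]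
            rw [e1]
            have hr1 : (1 : ℝ) ≤ r := by exact_mod_cast hr.1
            have hr0 : (0 : ℝ) < r := by linarith
            have hcard : (((T.erase v).filter (fun w => rr v w = r)).card : ℝ) ≤
                12 * r := by
              exact_mod_cast side_card (T.erase v) v r hr.1
            have hrp : (r : ℝ) * (r : ℝ) ^ (-(2 / 3 : ℝ)) ≤ Q := by
              have e2 : (r : ℝ) * (r : ℝ) ^ (-(2 / 3 : ℝ)) = (r : ℝ) ^ (1 / 3 : ℝ) := by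
                nth_rewrite 1 [← Real.rpow_one (r : ℝ)]
                rw [← Real.rpow_add hr0]
                norm_num
              rw [e2, hQdef]
              apply Real.rpow_le_rpow hr0.le _ (by norm_num)
              exact_mod_cast hr.2
            have hX : 0 ≤ C * (r : ℝ) ^ (-(2 / 3 : ℝ)) * (L ^ 2)⁻¹ := by positivity
            have hY : 0 ≤ 12 * C * (L ^ 2)⁻¹ := by positivity
            calc (((T.erase v).filter (fun w => rr v w = r)).card : ℝ) *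
                  (C * (r : ℝ) ^ (-(2 / 3 : ℝ)) * (L ^ 2)⁻¹)
                ≤ (12 * r) * (C * (r : ℝ) ^ (-(2 / 3 : ℝ)) * (L ^ 2)⁻¹) :=
                  mul_le_mul_of_nonneg_right hcard hX
              _ = (12 * C * (L ^ 2)⁻¹) * ((r : ℝ) * (r : ℝ) ^ (-(2 / 3 : ℝ))) := by ring
              _ ≤ (12 * C * (L ^ 2)⁻¹) * Q := mul_le_mul_of_nonneg_left hrp hY
              _ = 12 * C * Q * (L ^ 2)⁻¹ := by ring
        _ = 12 * C * Q ^ 4 * (L ^ 2)⁻¹ := by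
            rw [Finset.sum_const, Nat.card_Icc, nsmul_eq_mul, Nat.add_sub_cancel, ← hQ3]
            ring
  have hcardC : ((Bx n b).card : ℝ) ≤ 4 * L ^ 6 := by
    have h1 : (Bx n b).card ≤ (n + 1) * (n + 1) := by
      have h2 : (Bx n b).card ≤ (Plain.box n).card := by
        unfold Bx
        exact Finset.card_filter_le _ _
      have h3 : (Plain.box n).card = (n + 1) * (n + 1) := by
        unfold Plain.box
        rw [Finset.card_product, Int.card_Icc]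
        have : ((n : ℤ) + 1 - 0).toNat = n + 1 := by omega
        rw [this]
      rw [h3] at h2
      exact h2
    have h4 : ((Bx n b).card : ℝ) ≤ ((n : ℝ) + 1) * ((n : ℝ) + 1) := by exact_mod_cast h1
    have h5 : L ^ 6 = (n : ℝ) ^ 2 := by rw [← hL3]; ring
    rw [h5]
    nlinarith
  have hQ4 : 1 ≤ Q ^ 4 := one_le_pow₀ hQ1
  have hLi : 0 < (L ^ 2)⁻¹ := by positivity
  have hEx : Ex (fun _ => (1 / 2 : ℝ)) (RE 0 n 0 n) (fun F => ZZ n m b (↑F : Set Edg)) =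
      ∑ v ∈ Bx n b, ∑ w ∈ (Bx n b).filter (fun w => |v.1 - w.1| < m ∧ |v.2 - w.2| < m),
        Pr (fun _ => (1 / 2 : ℝ)) (RE 0 n 0 n)
          (fun F => TT v b (↑F : Set Edg) ∧ TT w b (↑F : Set Edg)) := by
    unfold ZZ
    rw [Ex_sum]
    refine Finset.sum_congr rfl fun v _ => ?_
    rw [Ex_sum]
    rfl
  rw [hEx]
  calc ∑ v ∈ Bx n b, ∑ w ∈ (Bx n b).filter (fun w => |v.1 - w.1| < m ∧ |v.2 - w.2| < m),
        Pr (fun _ => (1 / 2 : ℝ)) (RE 0 n 0 n)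
          (fun F => TT v b (↑F : Set Edg) ∧ TT w b (↑F : Set Edg))
      ≤ ∑ v ∈ Bx n b, (C1 * (L ^ 2)⁻¹ + 12 * C * Q ^ 4 * (L ^ 2)⁻¹) := Finset.sum_le_sum row
    _ = ((Bx n b).card : ℝ) * (C1 * (L ^ 2)⁻¹ + 12 * C * Q ^ 4 * (L ^ 2)⁻¹) := by
        rw [Finset.sum_const, nsmul_eq_mul]
    _ ≤ (4 * L ^ 6) * (C1 * (L ^ 2)⁻¹ + 12 * C * Q ^ 4 * (L ^ 2)⁻¹) :=
        mul_le_mul_of_nonneg_right hcardC (by positivity)
    _ ≤ (4 * L ^ 6) * (C1 * Q ^ 4 * (L ^ 2)⁻¹ + 12 * C * Q ^ 4 * (L ^ 2)⁻¹) := by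
        apply mul_le_mul_of_nonneg_left _ (by positivity)
        have : C1 * (L ^ 2)⁻¹ ≤ C1 * Q ^ 4 * (L ^ 2)⁻¹ := by
          apply mul_le_mul_of_nonneg_right _ hLi.le
          nlinarith
        linarith
    _ = (4 * C1 + 48 * C) * ((n : ℝ) ^ (4 / 3 : ℝ) * (m : ℝ) ^ (4 / 3 : ℝ)) := by
        rw [h43, h43m]
        field_simp
        ring

end Pool.Agent.W5h17.AC
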