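import Pool.Agent.W5h17.AC.Mom
import Pool.Agent.W5h17.AC.Two
import Pool.Agent.W5h17.AC.Det
import Pool.Agent.Y997.OBL.StmG
import Pool.Agent.W801.AV.T_BOX

/-!
Accessible vertices: the good event.
-/

set_option autoImplicit false

namespace Pool.Agent.W5h17.AC
open H974 H12S Finset H389NS H984P H984N H342P
open Pool.Agent.W424.OD
open Pool.Agent.Y997.OBL (S_OPAR)

/-- The good event. -/
def GG (n M b : ℕ) (c1 : ℝ) (F : Finset Edg) : Prop :=
  Big n ((M:ℤ) + 1) (↑F : Set Edg) ∧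
  (∀ v, Plain.Largest n F v →
    c1 * (n:ℝ) ^ (4/3 : ℝ) ≤ ((accessible n F v).card : ℝ)) ∧
  BD n b (↑F : Set Edg) < c1 / 2 * (n:ℝ) ^ (4/3 : ℝ)

theorem big_scale {δ : ℝ} (hδ : 0 < δ) : ∃ K : ℕ, 1 ≤ K ∧ ∀ n : ℕ, 32 * K ≤ n → ∃ M : ℕ,
    2 ≤ M ∧ n ≤ 12 * K * M ∧
    Pr (fun _ => (1/2:ℝ)) (RE 0 n 0 n) (fun F => ¬ Big n ((M:ℤ) + 1) (↑F : Set Edg)) ≤ δ := by
  obtain ⟨K0, hK0⟩ := exists_pow_lt_of_lt_one hδ (show (1/2:ℝ) < 1 by norm_num)
  obtain ⟨K, hK⟩ : ∃ K : ℕ, K = K0 + 1 := ⟨_, rfl⟩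
  have hKd : (1/2:ℝ) ^ K ≤ δ := by
    rw [hK, pow_succ]
    have : (0:ℝ) ≤ (1/2) ^ K0 := by positivity
    linarith
  refine ⟨K, by omega, fun n hnN => ?_⟩
  obtain ⟨L, hL⟩ : ∃ L : ℕ, L = n / (2 * K) := ⟨_, rfl⟩
  have hL16 : 16 ≤ L := by
    rw [hL, Nat.le_div_iff_mul_le (by omega)]
    omega
  obtain ⟨m, hm⟩ : ∃ m : ℕ, L / 3 = m + 1 := ⟨L / 3 - 1, by omega⟩
  have hLn : 2 * K * L ≤ n := by rw [hL]; exact Nat.mul_div_le n (2 * K)
  have hLn2 : n < 2 * K * (L + 1) := by rw [hL]; exact Nat.lt_mul_div_succ n (by omega)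
  have hm1 : 3 * (m + 1) ≤ L := by omega
  have hm2 : L < 3 * (m + 2) := by omega
  have hKL : K * (L + 1) ≤ n + 1 := by nlinarith
  have hLnn : L ≤ n := by nlinarith
  have hnm : n ≤ 12 * K * m := by
    have : 2 * K * (L + 1) ≤ 2 * K * (3 * (m + 2)) := Nat.mul_le_mul_left _ (by omega)
    have h3 : 2 ≤ m := by omega
    nlinarith
  refine ⟨m, by omega, hnm, ?_⟩
  exact (pr_not_big (n := n) (L := L) (K := K) (by omega) (m := (m:ℤ) + 1) (by omega)
      (by exact_mod_cast hm1) hKL hLnn).trans hKd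

theorem base {C : ℝ} (hC : 0 < C) (hU : Up3 C) (hO : S_OPAR) {δ : ℝ} (hδ : 0 < δ) :
    ∃ (κ : ℕ) (c1 : ℝ) (N0 : ℕ), 1 ≤ κ ∧ 0 < c1 ∧ ∀ n : ℕ, N0 ≤ n → ∃ M b : ℕ, 6 ≤ b ∧ b ≤ M ∧
      n ≤ κ * b ∧
      Pr (fun _ => (1/2:ℝ)) (RE 0 n 0 n) (fun F => ¬ GG n M b c1 F) ≤ δ := by
  obtain ⟨K, hK1, hbig⟩ := big_scale (show 0 < δ / 4 by linarith)
  obtain ⟨M0, B0, c, E, -, -, hc, -, n0, hop⟩ := hO 1 one_pos (by norm_num) (δ / 4) (by linarith)
  obtain ⟨c1, hc1def⟩ : ∃ c1 : ℝ, c1 = c / 25 := ⟨_, rfl⟩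
  have hc1 : 0 < c1 := by rw [hc1def]; positivity
  obtain ⟨ε, hεdef⟩ : ∃ ε : ℝ, ε = c1 * δ / 8 := ⟨_, rfl⟩
  have hε : 0 < ε := by rw [hεdef]; positivity
  obtain ⟨κ0, hκ0⟩ := exists_nat_ge ((48 * C / ε) ^ 3)
  obtain ⟨N1, hN1⟩ := exists_nat_ge ((16 / ε) ^ 3)
  obtain ⟨κ', hκ'def⟩ : ∃ κ' : ℕ, κ' = 12 * K + κ0 := ⟨_, rfl⟩
  have hκ'1 : 12 ≤ κ' := by omega
  refine ⟨2 * κ', c1, 32 * K + n0 + N1 + 6 * κ', by omega, hc1, fun n hn => ?_⟩
  obtain ⟨M, hM2, hnM, hNB⟩ := hbig n (by omega)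
  obtain ⟨b, hbdef⟩ : ∃ b : ℕ, b = n / κ' := ⟨_, rfl⟩
  have hb6 : 6 ≤ b := by
    rw [hbdef, Nat.le_div_iff_mul_le (by omega)]; omega
  have hbM : b ≤ M := by
    rw [hbdef]
    apply Nat.div_le_of_le_mul
    calc n ≤ 12 * K * M := hnM
      _ ≤ κ' * M := Nat.mul_le_mul_right M (by omega)
  have hnb : n ≤ 2 * κ' * b := by
    have h1 : n < κ' * (b + 1) := by rw [hbdef]; exact Nat.lt_mul_div_succ n (by omega)
    have h2 : κ' * (b + 1) ≤ κ' * (2 * b) := Nat.mul_le_mul_left _ (by omega)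
    calc n ≤ κ' * (2 * b) := h1.le.trans h2
      _ = 2 * κ' * b := by ring
  refine ⟨M, b, hb6, hbM, hnb, ?_⟩
  have hn1 : (1:ℝ) ≤ n := by exact_mod_cast (by omega : 1 ≤ n)
  have hn0 : (0:ℝ) < n := by linarith
  -- the largest cluster
  have h1 := hop n (by omega)
  -- the boundary
  obtain ⟨L, hLdef⟩ : ∃ L : ℝ, L = (n : ℝ) ^ (1 / 3 : ℝ) := ⟨_, rfl⟩
  have hL1 : 1 ≤ L := by rw [hLdef]; exact Real.one_le_rpow hn1 (by norm_num)
  have hL0 : 0 < L := by linarith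
  have hL3 : L ^ 3 = n := by
    rw [hLdef, ← Real.rpow_natCast, ← Real.rpow_mul hn0.le]; norm_num
  have h43 : (n : ℝ) ^ (4 / 3 : ℝ) = L ^ 4 := by
    rw [hLdef, ← Real.rpow_natCast, ← Real.rpow_mul hn0.le]; norm_num
  have hexp : Ex (fun _ => (1/2:ℝ)) (RE 0 n 0 n) (fun F => BD n b (↑F : Set Edg)) ≤ ε * L ^ 4 := by
    refine (ex_BD hC.le hU n b).trans ?_
    have h2 := sum_ph_le hC.le (show (0:ℝ) ≤ 2/3 by norm_num) (show (2/3:ℝ) < 1 by norm_num) b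
    have e4 : (1 - 2/3 : ℝ) = 1/3 := by norm_num
    rw [e4] at h2
    obtain ⟨Q, hQdef⟩ : ∃ Q : ℝ, Q = (b : ℝ) ^ (1 / 3 : ℝ) := ⟨_, rfl⟩
    have hb0 : (0:ℝ) < b := by exact_mod_cast (by omega : 0 < b)
    have hQ0 : 0 < Q := by rw [hQdef]; positivity
    have hQ3 : Q ^ 3 = b := by
      rw [hQdef, ← Real.rpow_natCast, ← Real.rpow_mul hb0.le]; norm_num
    rw [← hQdef] at h2
    -- `24 C Q ≤ ε / 2 * L`
    have hκ'n : (κ':ℝ) * b ≤ n := by
      have : κ' * b ≤ n := by rw [hbdef]; exact Nat.mul_div_le n κ'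
      exact_mod_cast this
    have hκκ : (48 * C / ε) ^ 3 ≤ (κ':ℝ) := by
      refine hκ0.trans ?_
      exact_mod_cast (by omega : κ0 ≤ κ')
    have hQL : 48 * C / ε * Q ≤ L := by
      have h3 : (48 * C / ε * Q) ^ 3 ≤ L ^ 3 := by
        rw [mul_pow, hQ3, hL3]
        exact (mul_le_mul_of_nonneg_right hκκ hb0.le).trans hκ'n
      exact le_of_pow_le_pow_left₀ (by norm_num) hL0.le h3
    have hQL2 : 24 * C * Q ≤ ε / 2 * L := by
      have h3 := mul_le_mul_of_nonneg_left hQL (show 0 ≤ ε / 2 by positivity)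
      have h4 : ε / 2 * (48 * C / ε * Q) = 24 * C * Q := by field_simp; ring
      linarith
    have hLL : 16 / ε ≤ L := by
      have h3 : (16 / ε) ^ 3 ≤ L ^ 3 := by
        rw [hL3]
        refine hN1.trans ?_
        exact_mod_cast (by omega : N1 ≤ n)
      exact le_of_pow_le_pow_left₀ (by norm_num) hL0.le h3
    have hLL2 : 8 ≤ ε / 2 * L := by
      have h3 := mul_le_mul_of_nonneg_left hLL (show 0 ≤ ε / 2 by positivity)
      have h4 : ε / 2 * (16 / ε) = 8 := by field_simp; ring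
      linarith
    calc 4 * ((n:ℝ) + 1) * ∑ x ∈ Finset.Icc (0:ℤ) b, ph C (2/3) x
        ≤ (8 * (n:ℝ)) * (1 + C * (Q / (1/3))) := by
          apply mul_le_mul (by linarith) h2 (Finset.sum_nonneg (fun x _ => ph_nonneg hC.le x))
            (by positivity)
      _ = (8 + 24 * C * Q) * n := by ring
      _ ≤ (ε / 2 * L + ε / 2 * L) * n := by
          apply mul_le_mul_of_nonneg_right _ hn0.le
          linarith
      _ = ε * L ^ 4 := by rw [← hL3]; ring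
  have hmk := markov (S := RE 0 n 0 n) (X := fun F => BD n b (↑F : Set Edg))
    (fun F => BD_nonneg n b (↑F)) (t := c1 / 2 * L ^ 4) (by positivity)
  have hmk2 : Ex (fun _ => (1/2:ℝ)) (RE 0 n 0 n) (fun F => BD n b (↑F : Set Edg)) /
      (c1 / 2 * L ^ 4) ≤ δ / 4 := by
    rw [div_le_iff₀ (by positivity)]
    refine hexp.trans (le_of_eq ?_)
    rw [hεdef]; ring
  have hsum : Pr (fun _ => (1/2:ℝ)) (RE 0 n 0 n) (fun F => ¬ GG n M b c1 F) ≤
      Pr (fun _ => (1/2:ℝ)) (RE 0 n 0 n) (fun F => (¬ Big n ((M:ℤ) + 1) (↑F : Set Edg)) ∨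
        ((∃ v : Vtx, IsMax n (↑F : Set Edg) v ∧
          ¬ Pool.Agent.Y997.OBL.RTh 1 c E M0 B0 n v (↑F : Set Edg)) ∨
        c1 / 2 * L ^ 4 ≤ BD n b (↑F : Set Edg))) := by
    apply Pr_mono hok
    intro F hF hG
    by_contra hcon
    push Not at hcon
    obtain ⟨g1, g2, g3⟩ := hcon
    apply hG
    refine ⟨g1, fun v hv => ?_, ?_⟩
    · have hvb : inR 0 n 0 n v := by
        have := hv.1
        unfold Plain.box at this
        rw [Finset.mem_product, Finset.mem_Icc, Finset.mem_Icc] at this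
        unfold inR
        omega
      rw [hc1def]
      exact card_of_RTh (by omega) hF hvb (g2 v (Plain.isMax_of_largest hv))
    · rw [h43]
      exact g3
  have h5 := Pr_or_le hok (RE 0 n 0 n) (fun F => (¬ Big n ((M:ℤ) + 1) (↑F : Set Edg)))
    (fun F => (∃ v : Vtx, IsMax n (↑F : Set Edg) v ∧
          ¬ Pool.Agent.Y997.OBL.RTh 1 c E M0 B0 n v (↑F : Set Edg)) ∨
        c1 / 2 * L ^ 4 ≤ BD n b (↑F : Set Edg))
  have h6 := Pr_or_le hok (RE 0 n 0 n) (fun F => (∃ v : Vtx, IsMax n (↑F : Set Edg) v ∧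
          ¬ Pool.Agent.Y997.OBL.RTh 1 c E M0 B0 n v (↑F : Set Edg)))
    (fun F => c1 / 2 * L ^ 4 ≤ BD n b (↑F : Set Edg))
  linarith

/-- The number of squares of side `m` with accessible vertices. -/
noncomputable def NM (n m : ℕ) (F : Finset Edg) (v : ℤ × ℤ) : ℝ :=
  (((accessible n F v).image (fun w => (w.1 / (m : ℤ), w.2 / (m : ℤ)))).card : ℝ)

theorem low {n M b m : ℕ} {c1 : ℝ} (hc1 : 0 < c1) {F : Finset Edg} {v : ℤ × ℤ} (hm : 1 ≤ m)
    (hbM : b ≤ M) (hG : GG n M b c1 F) (hv : Plain.Largest n F v) :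
    (c1 / 2 * (n:ℝ) ^ (4/3 : ℝ)) ^ 2 ≤ NM n m F v * ZZ n m b (↑F : Set Edg) := by
  classical
  obtain ⟨hB, hA, hD⟩ := hG
  have hmax := Plain.isMax_of_largest hv
  set A := accessible n F v with hAdef
  set A' := A.filter (fun w => ¬ bdist n w < b) with hA'
  have h1 := bd_card hmax hB hbM
  have h2 := Finset.card_filter_add_card_filter_not (s := A) (fun w => bdist n w < b)
  have h3 : ((A.filter (fun w => bdist n w < b)).card : ℝ) + (A'.card : ℝ) = (A.card : ℝ) := by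
    exact_mod_cast h2
  have h4 := hA v hv
  have hcard : c1 / 2 * (n:ℝ) ^ (4/3 : ℝ) ≤ (A'.card : ℝ) := by
    have h5 : ((A.filter (fun w => bdist n w < b)).card : ℝ) < c1 / 2 * (n:ℝ) ^ (4/3 : ℝ) :=
      lt_of_le_of_lt h1 hD
    linarith
  set g : ℤ × ℤ → ℤ × ℤ := fun w => (w.1 / (m : ℤ), w.2 / (m : ℤ)) with hg
  have hcs := Pool.Agent.W801.AV.TBOX.cs A' g
  have hA'T : ∀ w ∈ A', w ∈ Bx n b ∧ TT w b (↑F : Set Edg) := by
    intro w hw
    rw [hA', Finset.mem_filter, hAdef] at hw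
    obtain ⟨hw1, hw2⟩ := hw
    unfold accessible at hw1
    rw [Finset.mem_filter] at hw1
    refine ⟨?_, TT_of_acc hmax hB hw1.2 hbM (by omega)⟩
    unfold Bx
    rw [Finset.mem_filter]
    exact ⟨hw1.1, by omega⟩
  have hZA : ∑ v ∈ A', ((A'.filter (fun w => g w = g v)).card : ℝ) ≤ ZZ n m b (↑F : Set Edg) := by
    unfold ZZ
    calc ∑ v ∈ A', ((A'.filter (fun w => g w = g v)).card : ℝ)
        ≤ ∑ v ∈ A', ∑ w ∈ (Bx n b).filter (fun w => |v.1 - w.1| < m ∧ |v.2 - w.2| < m),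
            ind (TT v b (↑F : Set Edg) ∧ TT w b (↑F : Set Edg)) := by
          refine Finset.sum_le_sum fun v hv => ?_
          have hsub : A'.filter (fun w => g w = g v) ⊆
              ((Bx n b).filter (fun w => |v.1 - w.1| < m ∧ |v.2 - w.2| < m)).filter
                (fun w => TT v b (↑F : Set Edg) ∧ TT w b (↑F : Set Edg)) := by
            intro w hw
            rw [Finset.mem_filter] at hw
            obtain ⟨hw1, hw2⟩ := hw
            rw [hg] at hw2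
            simp only [Prod.mk.injEq] at hw2
            rw [Finset.mem_filter, Finset.mem_filter]
            exact ⟨⟨(hA'T w hw1).1, Pool.Agent.W801.AV.TBOX.near hm hw2.1.symm,
              Pool.Agent.W801.AV.TBOX.near hm hw2.2.symm⟩, (hA'T v hv).2, (hA'T w hw1).2⟩
          have h3 : ((A'.filter (fun w => g w = g v)).card : ℝ) ≤
              ((((Bx n b).filter (fun w => |v.1 - w.1| < m ∧ |v.2 - w.2| < m)).filter
                (fun w => TT v b (↑F : Set Edg) ∧ TT w b (↑F : Set Edg))).card : ℝ) := by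
            exact_mod_cast Finset.card_le_card hsub
          refine h3.trans (le_of_eq ?_)
          rw [Finset.card_filter]
          push_cast
          refine Finset.sum_congr rfl fun w _ => ?_
          by_cases hw : TT v b (↑F : Set Edg) ∧ TT w b (↑F : Set Edg)
          · rw [ind_of hw, if_pos hw]
          · rw [ind_not_of hw, if_neg hw]
      _ ≤ _ := by
          refine Finset.sum_le_sum_of_subset_of_nonneg (fun w hw => (hA'T w hw).1) ?_
          intro v _ _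
          exact Finset.sum_nonneg fun w _ => ind_nonneg _
  have himg : ((A'.image g).card : ℝ) ≤ NM n m F v := by
    unfold NM
    exact_mod_cast Finset.card_le_card (Finset.image_subset_image (Finset.filter_subset _ _))
  calc (c1 / 2 * (n:ℝ) ^ (4/3 : ℝ)) ^ 2 ≤ (A'.card : ℝ) ^ 2 := by gcongr
    _ ≤ ((A'.image g).card : ℝ) * ∑ v ∈ A', ((A'.filter (fun w => g w = g v)).card : ℝ) := hcs
    _ ≤ NM n m F v * ZZ n m b (↑F : Set Edg) := by
        apply mul_le_mul himg hZA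
        · exact Finset.sum_nonneg fun v _ => Nat.cast_nonneg _
        · unfold NM; exact Nat.cast_nonneg _

theorem upp {n M b m : ℕ} {c1 : ℝ} {F : Finset Edg} {v : ℤ × ℤ} (hm : 1 ≤ m)
    (hG : GG n M b c1 F) (hv : Plain.Largest n F v) :
    NM n m F v ≤ UU n m (M / m) (↑F : Set Edg) :=
  img_le hm (Plain.isMax_of_largest hv) hG.1 (Nat.mul_div_le M m)

/-! ### Comparison of scales -/

theorem ediv_mem {p q s w : ℤ} (hp : 0 < p) (hq : 0 < q) (hqs : q ≤ s * p) :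
    q * (w / q) / p ≤ w / p ∧ w / p ≤ q * (w / q) / p + s := by
  have e1 := Int.mul_ediv_add_emod w q
  have e2 := Int.emod_nonneg w hq.ne'
  have e3 := Int.emod_lt_of_pos w hq
  constructor
  · exact Int.ediv_le_ediv hp (by linarith)
  · rw [← Int.add_mul_ediv_right _ _ hp.ne']
    exact Int.ediv_le_ediv hp (by linarith)

theorem img_cmp (A : Finset (ℤ × ℤ)) {p q s : ℕ} (hp : 1 ≤ p) (hq : 1 ≤ q) (hqs : q ≤ s * p) :
    (A.image (fun w => (w.1 / (p : ℤ), w.2 / (p : ℤ)))).card ≤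
      (A.image (fun w => (w.1 / (q : ℤ), w.2 / (q : ℤ)))).card * (s + 1) ^ 2 := by
  classical
  have hp' : (0:ℤ) < p := by exact_mod_cast hp
  have hq' : (0:ℤ) < q := by exact_mod_cast hq
  have hqs' : (q:ℤ) ≤ s * p := by exact_mod_cast hqs
  set f : ℤ × ℤ → Finset (ℤ × ℤ) := fun z =>
    Finset.Icc ((q:ℤ) * z.1 / p) ((q:ℤ) * z.1 / p + s) ×ˢ
      Finset.Icc ((q:ℤ) * z.2 / p) ((q:ℤ) * z.2 / p + s) with hf
  have hsub : A.image (fun w => (w.1 / (p : ℤ), w.2 / (p : ℤ))) ⊆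
      (A.image (fun w => (w.1 / (q : ℤ), w.2 / (q : ℤ)))).biUnion f := by
    intro z hz
    rw [Finset.mem_image] at hz
    obtain ⟨w, hw, rfl⟩ := hz
    rw [Finset.mem_biUnion]
    refine ⟨(w.1 / (q : ℤ), w.2 / (q : ℤ)), Finset.mem_image_of_mem _ hw, ?_⟩
    rw [hf]
    simp only
    rw [Finset.mem_product, Finset.mem_Icc, Finset.mem_Icc]
    exact ⟨ediv_mem hp' hq' hqs', ediv_mem hp' hq' hqs'⟩
  refine (Finset.card_le_card hsub).trans (Finset.card_biUnion_le_card_mul _ f _ ?_)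
  intro z _
  rw [hf]
  simp only
  rw [Finset.card_product, Int.card_Icc, Int.card_Icc]
  have e1 : ((q:ℤ) * z.1 / p + s + 1 - (q:ℤ) * z.1 / p).toNat = s + 1 := by omega
  have e2 : ((q:ℤ) * z.2 / p + s + 1 - (q:ℤ) * z.2 / p).toNat = s + 1 := by omega
  rw [e1, e2, sq]

theorem NM_cmp (n : ℕ) (F : Finset Edg) (v : ℤ × ℤ) {p q s : ℕ} (hp : 1 ≤ p) (hq : 1 ≤ q)
    (hqs : q ≤ s * p) : NM n p F v ≤ NM n q F v * ((s:ℝ) + 1) ^ 2 := by
  unfold NM
  exact_mod_cast img_cmp (accessible n F v) hp hq hqs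

end Pool.Agent.W5h17.AC
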