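import Pool.Agent.W5h17.AC.Base

/-!
Accessible vertices: the result.
-/

set_option autoImplicit false

namespace Pool.Agent.W5h17.AC
open H974 H12S Finset H389NS H984P H984N H342P
open Pool.Agent.W424.OD
open Pool.Agent.Y997.OBL (S_OPAR)

theorem NM_nonneg (n m : ℕ) (F : Finset Edg) (v : ℤ × ℤ) : 0 ≤ NM n m F v := by
  unfold NM; exact Nat.cast_nonneg _

theorem fixed_scale {C : ℝ} (hC : 0 < C) (hU : Up3 C) (hO : S_OPAR) {δ : ℝ} (hδ : 0 < δ) :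
    ∃ (c K : ℝ) (N0 : ℕ), 0 < c ∧ 0 < K ∧ ∀ n : ℕ, N0 ≤ n → ∀ m : ℕ, 1 ≤ m → m ≤ n →
      Pr (fun _ => (1/2:ℝ)) (RE 0 n 0 n) (fun F => ¬ ∀ v, Plain.Largest n F v →
        c * ((n:ℝ) / m) ^ (4/3 : ℝ) ≤ NM n m F v ∧
          NM n m F v ≤ K * ((n:ℝ) / m) ^ (4/3 : ℝ)) ≤ δ := by
  obtain ⟨κ, c1, N0, hκ, hc1, hbase⟩ := base hC hU hO (show 0 < δ / 2 by linarith)
  obtain ⟨A1, hA1, hUU⟩ := ex_UU_le hC.le hU κ hκ
  obtain ⟨A2, hA2, hZZ⟩ := ex_ZZ hC hU κ hκ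
  refine ⟨c1 ^ 2 / (4 * (4 * A2 / δ)), 4 * A1 / δ, N0, by positivity, by positivity, ?_⟩
  intro n hn m hm hmn
  obtain ⟨M, b, hb6, hbM, hnb, hG⟩ := hbase n hn
  have hm0 : (0:ℝ) < m := by exact_mod_cast hm
  have hn0 : (0:ℝ) < n := by exact_mod_cast (by omega : 0 < n)
  obtain ⟨x, hx⟩ : ∃ x : ℝ, x = ((n:ℝ) / m) ^ (4/3 : ℝ) := ⟨_, rfl⟩
  obtain ⟨y, hy⟩ : ∃ y : ℝ, y = (n:ℝ) ^ (4/3 : ℝ) := ⟨_, rfl⟩
  obtain ⟨z, hz⟩ : ∃ z : ℝ, z = (m:ℝ) ^ (4/3 : ℝ) := ⟨_, rfl⟩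
  have hx0 : 0 < x := by rw [hx]; positivity
  have hy0 : 0 < y := by rw [hy]; positivity
  have hz0 : 0 < z := by rw [hz]; positivity
  have hxyz : x * z = y := by
    rw [hx, hy, hz, Real.div_rpow hn0.le hm0.le]
    field_simp
  have h1 := hUU n m M hm hmn (hnb.trans (Nat.mul_le_mul_left κ hbM))
  have h2 := hZZ n m b hb6 hnb hm hmn
  rw [← hx] at h1 ⊢
  rw [← hy, ← hz] at h2
  have m1 := markov (S := RE 0 n 0 n) (X := fun F => UU n m (M / m) (↑F : Set Edg))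
    (fun F => UU_nonneg n m (M / m) (↑F)) (t := 4 * A1 / δ * x) (by positivity)
  have m1' : Ex (fun _ => (1/2:ℝ)) (RE 0 n 0 n) (fun F => UU n m (M / m) (↑F : Set Edg)) /
      (4 * A1 / δ * x) ≤ δ / 4 := by
    rw [div_le_iff₀ (by positivity)]
    refine h1.trans (le_of_eq ?_)
    field_simp
  have m2 := markov (S := RE 0 n 0 n) (X := fun F => ZZ n m b (↑F : Set Edg))
    (fun F => ZZ_nonneg n m b (↑F)) (t := 4 * A2 / δ * (y * z)) (by positivity)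
  have m2' : Ex (fun _ => (1/2:ℝ)) (RE 0 n 0 n) (fun F => ZZ n m b (↑F : Set Edg)) /
      (4 * A2 / δ * (y * z)) ≤ δ / 4 := by
    rw [div_le_iff₀ (by positivity)]
    refine h2.trans (le_of_eq ?_)
    field_simp
  have hsum : Pr (fun _ => (1/2:ℝ)) (RE 0 n 0 n) (fun F => ¬ ∀ v, Plain.Largest n F v →
        c1 ^ 2 / (4 * (4 * A2 / δ)) * x ≤ NM n m F v ∧ NM n m F v ≤ 4 * A1 / δ * x) ≤
      Pr (fun _ => (1/2:ℝ)) (RE 0 n 0 n) (fun F => ¬ GG n M b c1 F ∨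
        (4 * A1 / δ * x ≤ UU n m (M / m) (↑F : Set Edg) ∨
          4 * A2 / δ * (y * z) ≤ ZZ n m b (↑F : Set Edg))) := by
    apply Pr_mono hok
    intro F _ hF
    by_contra hcon
    push Not at hcon
    obtain ⟨g1, g2, g3⟩ := hcon
    apply hF
    intro v hv
    refine ⟨?_, (upp hm g1 hv).trans g2.le⟩
    have h5 := low hc1 hm hbM g1 hv
    rw [← hy] at h5
    have h6 : (c1 / 2 * y) ^ 2 ≤ NM n m F v * (4 * A2 / δ * (y * z)) :=
      h5.trans (mul_le_mul_of_nonneg_left g3.le (NM_nonneg n m F v))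
    have h7 : c1 ^ 2 / (4 * (4 * A2 / δ)) * x * (4 * A2 / δ * (y * z)) = (c1 / 2 * y) ^ 2 := by
      rw [← hxyz]
      field_simp
      norm_num
    rw [← h7] at h6
    exact le_of_mul_le_mul_right h6 (by positivity)
  have h5 := Pr_or_le hok (RE 0 n 0 n) (fun F => ¬ GG n M b c1 F)
    (fun F => (4 * A1 / δ * x ≤ UU n m (M / m) (↑F : Set Edg) ∨
          4 * A2 / δ * (y * z) ≤ ZZ n m b (↑F : Set Edg)))
  have h6 := Pr_or_le hok (RE 0 n 0 n) (fun F => 4 * A1 / δ * x ≤ UU n m (M / m) (↑F : Set Edg))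
    (fun F => 4 * A2 / δ * (y * z) ≤ ZZ n m b (↑F : Set Edg))
  linarith

theorem sq_sum (N : ℕ) : ∑ j ∈ Finset.range N, 1 / ((j:ℝ) + 1) ^ 2 ≤ 2 := by
  have key : ∀ N : ℕ, ∑ j ∈ Finset.range (N + 1), 1 / ((j:ℝ) + 1) ^ 2 ≤ 2 - 1 / ((N:ℝ) + 1) := by
    intro N
    induction N with
    | zero => norm_num
    | succ N ih =>
      rw [Finset.sum_range_succ]
      have hN : (0:ℝ) ≤ N := Nat.cast_nonneg N
      have h1 : 1 / (((N + 1 : ℕ) : ℝ) + 1) ^ 2 ≤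
          1 / ((N:ℝ) + 1) - 1 / (((N + 1 : ℕ) : ℝ) + 1) := by
        push_cast
        rw [div_sub_div _ _ (by positivity) (by positivity), div_le_div_iff₀ (by positivity)
          (by positivity)]
        nlinarith
      linarith
  rcases N with _ | N
  · simp
  · have h1 := key N
    have h2 : 0 ≤ 1 / ((N:ℝ) + 1) := by positivity
    linarith

/-- Union bound over the dyadic scales. -/
theorem dyad {L : ℕ} {S : Finset Edg} {Y : ℕ → Finset Edg → ℝ} (hY : ∀ k F, 0 ≤ Y k F)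
    {a : ℕ → ℝ} (ha : ∀ k ∈ Finset.range (L + 1), 0 < a k)
    (hE : ∀ k ∈ Finset.range (L + 1), Ex (fun _ => (1/2:ℝ)) S (Y k) ≤ a k) {X : ℝ} (hX : 0 < X) :
    Pr (fun _ => (1/2:ℝ)) S (fun F => ∃ k ∈ Finset.range (L + 1),
      X * (((L - k : ℕ) : ℝ) + 1) ^ 2 * a k ≤ Y k F) ≤ 2 / X := by
  refine (Pr_exists_le hok S (Finset.range (L + 1))
    (fun k F => X * (((L - k : ℕ) : ℝ) + 1) ^ 2 * a k ≤ Y k F)).trans ?_
  have h1 : ∀ k ∈ Finset.range (L + 1), Pr (fun _ => (1/2:ℝ)) S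
      (fun F => X * (((L - k : ℕ) : ℝ) + 1) ^ 2 * a k ≤ Y k F) ≤
        1 / (((L - k : ℕ) : ℝ) + 1) ^ 2 / X := by
    intro k hk
    have h2 := ha k hk
    have h3 : (0:ℝ) < (((L - k : ℕ) : ℝ) + 1) ^ 2 := by positivity
    refine (markov (S := S) (X := Y k) (hY k) (t := X * (((L - k : ℕ) : ℝ) + 1) ^ 2 * a k)
      (by positivity)).trans ?_
    rw [div_le_iff₀ (by positivity)]
    refine (hE k hk).trans (le_of_eq ?_)
    field_simp
  refine (Finset.sum_le_sum h1).trans ?_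
  rw [← Finset.sum_div]
  have h2 := Finset.sum_range_reflect (fun j : ℕ => 1 / ((j:ℝ) + 1) ^ 2) (L + 1)
  simp only [Nat.add_sub_cancel] at h2
  rw [h2]
  exact div_le_div_of_nonneg_right (sq_sum _) hX.le

theorem all_scales {C : ℝ} (hC : 0 < C) (hU : Up3 C) (hO : S_OPAR) {δ : ℝ} (hδ : 0 < δ) :
    ∃ (c K : ℝ) (N0 : ℕ), 0 < c ∧ 0 < K ∧ ∀ n : ℕ, N0 ≤ n →
      Pr (fun _ => (1/2:ℝ)) (RE 0 n 0 n) (fun F => ¬ ∀ v, Plain.Largest n F v →
        ∀ m : ℕ, 1 ≤ m → m ≤ n →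
        c * ((n:ℝ) / m) ^ (4/3 : ℝ) / (1 + Real.log ((n:ℝ) / m)) ^ 2 ≤ NM n m F v ∧
          NM n m F v ≤ K * ((n:ℝ) / m) ^ (4/3 : ℝ) * (1 + Real.log ((n:ℝ) / m)) ^ 2) ≤ δ := by
  obtain ⟨κ, c1, N0, hκ, hc1, hbase⟩ := base hC hU hO (show 0 < δ / 2 by linarith)
  obtain ⟨A1, hA1, hUU⟩ := ex_UU_le hC.le hU κ hκ
  obtain ⟨A2, hA2, hZZ⟩ := ex_ZZ hC hU κ hκ
  obtain ⟨X, hX⟩ : ∃ X : ℝ, X = 8 / δ := ⟨_, rfl⟩
  have hX0 : 0 < X := by rw [hX]; positivity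
  refine ⟨c1 ^ 2 / (144 * X * A2), 64 * X * A1, N0, by positivity, by positivity, ?_⟩
  intro n hn
  obtain ⟨M, b, hb6, hbM, hnb, hG⟩ := hbase n hn
  have hκb0 : b ≤ κ * b := by nlinarith
  by_cases hn1 : n = 0
  · -- no scale
    refine le_trans (le_trans (Pr_mono hok (B := fun F => ¬ GG n M b c1 F) ?_) hG) (by linarith)
    intro F _ hF
    exfalso
    apply hF
    intro v _ m h1 h2
    omega
  have hn1' : 1 ≤ n := by omega
  have hn0 : (0:ℝ) < n := by exact_mod_cast hn1'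
  obtain ⟨L, hL⟩ : ∃ L : ℕ, L = Nat.log 2 n := ⟨_, rfl⟩
  have hLn : 2 ^ L ≤ n := by rw [hL]; exact Nat.pow_log_le_self 2 hn1
  obtain ⟨y, hy⟩ : ∃ y : ℝ, y = (n:ℝ) ^ (4/3 : ℝ) := ⟨_, rfl⟩
  have hy0 : 0 < y := by rw [hy]; positivity
  have hpow : ∀ k ∈ Finset.range (L + 1), 1 ≤ 2 ^ k ∧ 2 ^ k ≤ n := by
    intro k hk
    rw [Finset.mem_range] at hk
    exact ⟨Nat.one_le_two_pow, (Nat.pow_le_pow_right (by norm_num) (by omega)).trans hLn⟩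
  have e1 := dyad (L := L) (S := RE 0 n 0 n)
    (Y := fun k F => UU n (2 ^ k) (M / 2 ^ k) (↑F : Set Edg))
    (fun k F => UU_nonneg _ _ _ _) (a := fun k => A1 * ((n:ℝ) / (2 ^ k : ℕ)) ^ (4/3 : ℝ))
    (fun k hk => by
      have := (hpow k hk).1
      positivity)
    (fun k hk => hUU n (2 ^ k) M (hpow k hk).1 (hpow k hk).2
      (hnb.trans (Nat.mul_le_mul_left κ hbM))) hX0
  have e2 := dyad (L := L) (S := RE 0 n 0 n)
    (Y := fun k F => ZZ n (2 ^ k) b (↑F : Set Edg))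
    (fun k F => ZZ_nonneg _ _ _ _)
    (a := fun k => A2 * ((n : ℝ) ^ (4 / 3 : ℝ) * ((2 ^ k : ℕ) : ℝ) ^ (4 / 3 : ℝ)))
    (fun k hk => by
      have := (hpow k hk).1
      positivity)
    (fun k hk => hZZ n (2 ^ k) b hb6 hnb (hpow k hk).1 (hpow k hk).2) hX0
  have hX2 : 2 / X = δ / 4 := by rw [hX]; field_simp; norm_num
  rw [hX2] at e1 e2
  have hsum : Pr (fun _ => (1/2:ℝ)) (RE 0 n 0 n) (fun F => ¬ ∀ v, Plain.Largest n F v →
        ∀ m : ℕ, 1 ≤ m → m ≤ n →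
        c1 ^ 2 / (144 * X * A2) * ((n:ℝ) / m) ^ (4/3 : ℝ) / (1 + Real.log ((n:ℝ) / m)) ^ 2 ≤
            NM n m F v ∧
          NM n m F v ≤ 64 * X * A1 * ((n:ℝ) / m) ^ (4/3 : ℝ) *
            (1 + Real.log ((n:ℝ) / m)) ^ 2) ≤
      Pr (fun _ => (1/2:ℝ)) (RE 0 n 0 n) (fun F => ¬ GG n M b c1 F ∨
        ((∃ k ∈ Finset.range (L + 1), X * (((L - k : ℕ) : ℝ) + 1) ^ 2 *
            (A1 * ((n:ℝ) / (2 ^ k : ℕ)) ^ (4/3 : ℝ)) ≤ UU n (2 ^ k) (M / 2 ^ k) (↑F : Set Edg)) ∨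
          ∃ k ∈ Finset.range (L + 1), X * (((L - k : ℕ) : ℝ) + 1) ^ 2 *
            (A2 * ((n : ℝ) ^ (4 / 3 : ℝ) * ((2 ^ k : ℕ) : ℝ) ^ (4 / 3 : ℝ))) ≤
              ZZ n (2 ^ k) b (↑F : Set Edg))) := by
    apply Pr_mono hok
    intro F _ hF
    by_contra hcon
    push Not at hcon
    obtain ⟨g1, g2, g3⟩ := hcon
    apply hF
    intro v hv m hm hmn
    have hm0 : (0:ℝ) < m := by exact_mod_cast hm
    obtain ⟨k, hk⟩ : ∃ k : ℕ, k = Nat.log 2 m := ⟨_, rfl⟩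
    obtain ⟨p, hp⟩ : ∃ p : ℕ, p = 2 ^ k := ⟨_, rfl⟩
    have hpm : p ≤ m := by rw [hp, hk]; exact Nat.pow_log_le_self 2 (by omega)
    have hmp : m < 2 * p := by
      rw [hp, hk]
      have := Nat.lt_pow_succ_log_self (b := 2) (by norm_num) m
      rw [pow_succ] at this
      omega
    have hp1 : 1 ≤ p := by omega
    have hp0 : (0:ℝ) < p := by exact_mod_cast hp1
    have hkL : k ≤ L := by rw [hk, hL]; exact Nat.log_mono_right hmn
    have hkr : k ∈ Finset.range (L + 1) := by rw [Finset.mem_range]; omega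
    have u1 := g2 k hkr
    have u2 := g3 k hkr
    rw [← hp] at u1 u2
    rw [← hy] at u2
    obtain ⟨d, hd⟩ : ∃ d : ℝ, d = ((L - k : ℕ) : ℝ) + 1 := ⟨_, rfl⟩
    have hd1 : 1 ≤ d := by
      have : (0:ℝ) ≤ ((L - k : ℕ) : ℝ) := Nat.cast_nonneg _
      rw [hd]; linarith
    rw [← hd] at u1 u2
    obtain ⟨Λ, hΛ⟩ : ∃ Λ : ℝ, Λ = 1 + Real.log ((n:ℝ) / m) := ⟨_, rfl⟩
    have hnm1 : (1:ℝ) ≤ (n:ℝ) / m := by
      rw [le_div_iff₀ hm0, one_mul]; exact_mod_cast hmn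
    have hlog0 : 0 ≤ Real.log ((n:ℝ) / m) := Real.log_nonneg hnm1
    have hΛ1 : 1 ≤ Λ := by rw [hΛ]; linarith
    have hdΛ : d ≤ 2 * Λ := by
      have h1 : 2 ^ (L - k) * p ≤ n := by
        rw [hp, ← pow_add, Nat.sub_add_cancel hkL]; exact hLn
      have h2 : ((2:ℝ) ^ (L - k)) * p ≤ n := by exact_mod_cast h1
      have hmp' : (m:ℝ) < 2 * p := by exact_mod_cast hmp
      have h3 : (2:ℝ) ^ (L - k) ≤ 2 * ((n:ℝ) / m) := by
        rw [mul_div_assoc', le_div_iff₀ hm0]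
        have h4 : (0:ℝ) < (2:ℝ) ^ (L - k) := by positivity
        nlinarith
      have h5 := Real.log_le_log (by positivity) h3
      rw [Real.log_pow, Real.log_mul (by norm_num) (by positivity)] at h5
      have h6 := Real.log_two_gt_d9
      have h7 : ((L - k : ℕ) : ℝ) ≤ 1 + 2 * Real.log ((n:ℝ) / m) := by
        by_contra hcon
        push Not at hcon
        have h8 : (1 + 2 * Real.log ((n:ℝ) / m)) * Real.log 2 < ((L - k : ℕ) : ℝ) * Real.log 2 :=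
          mul_lt_mul_of_pos_right hcon (by linarith)
        nlinarith
      rw [hd, hΛ]
      linarith
    obtain ⟨x, hx⟩ : ∃ x : ℝ, x = ((n:ℝ) / m) ^ (4/3 : ℝ) := ⟨_, rfl⟩
    obtain ⟨xp, hxp⟩ : ∃ xp : ℝ, xp = ((n:ℝ) / p) ^ (4/3 : ℝ) := ⟨_, rfl⟩
    obtain ⟨z, hz⟩ : ∃ z : ℝ, z = (p:ℝ) ^ (4/3 : ℝ) := ⟨_, rfl⟩
    have hx0 : 0 < x := by rw [hx]; positivity
    have hxp0 : 0 < xp := by rw [hxp]; positivity
    have hz0 : 0 < z := by rw [hz]; positivity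
    have hxyz : xp * z = y := by
      rw [hxp, hy, hz, Real.div_rpow hn0.le hp0.le]
      field_simp
    rw [← hxp] at u1
    rw [← hz] at u2
    rw [← hx, ← hΛ]
    have hpm' : (p:ℝ) ≤ m := by exact_mod_cast hpm
    have hmp' : (m:ℝ) ≤ 2 * p := by exact_mod_cast hmp.le
    have hxxp : x ≤ xp := by
      rw [hx, hxp]
      apply Real.rpow_le_rpow (by positivity) _ (by norm_num)
      exact div_le_div_of_nonneg_left hn0.le hp0 hpm'
    have hxpx : xp ≤ 4 * x := by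
      have h1 : xp ≤ (2 * ((n:ℝ) / m)) ^ (4/3 : ℝ) := by
        rw [hxp]
        apply Real.rpow_le_rpow (by positivity) _ (by norm_num)
        rw [mul_div_assoc', div_le_div_iff₀ hp0 hm0]
        nlinarith
      rw [Real.mul_rpow (by norm_num) (by positivity), ← hx] at h1
      have h2 : (2:ℝ) ^ (4/3 : ℝ) ≤ 4 := by
        calc (2:ℝ) ^ (4/3 : ℝ) ≤ (2:ℝ) ^ (2 : ℝ) :=
              Real.rpow_le_rpow_of_exponent_le (by norm_num) (by norm_num)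
          _ = 4 := by norm_num
      have h3 := mul_le_mul_of_nonneg_right h2 hx0.le
      linarith
    have hd2 : d ^ 2 ≤ 4 * Λ ^ 2 := by
      have : d ^ 2 ≤ (2 * Λ) ^ 2 := by gcongr
      linarith [this, show (2 * Λ) ^ 2 = 4 * Λ ^ 2 by ring]
    constructor
    · -- lower bound
      have h5 := low hc1 hp1 hbM g1 hv
      rw [← hy] at h5
      have h6 : (c1 / 2 * y) ^ 2 ≤ NM n p F v * (X * d ^ 2 * (A2 * (y * z))) :=
        h5.trans (mul_le_mul_of_nonneg_left u2.le (NM_nonneg n p F v))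
      have h7 : c1 ^ 2 / (4 * X * A2 * d ^ 2) * xp * (X * d ^ 2 * (A2 * (y * z))) =
          (c1 / 2 * y) ^ 2 := by
        rw [← hxyz]
        field_simp
        norm_num
      rw [← h7] at h6
      have h8 : c1 ^ 2 / (4 * X * A2 * d ^ 2) * xp ≤ NM n p F v :=
        le_of_mul_le_mul_right h6 (by positivity)
      have h9 := NM_cmp n F v (p := p) (q := m) (s := 2) hp1 hm (by omega)
      have h10 : c1 ^ 2 / (144 * X * A2) * x / Λ ^ 2 ≤ c1 ^ 2 / (4 * X * A2 * d ^ 2) * xp / 9 := by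
        have e : c1 ^ 2 / (144 * X * A2) * x / Λ ^ 2 =
            c1 ^ 2 / (4 * X * A2 * (4 * Λ ^ 2)) * x / 9 := by
          field_simp
          norm_num
        rw [e]
        gcongr
      refine h10.trans ?_
      rw [div_le_iff₀ (by norm_num)]
      refine h8.trans (h9.trans (le_of_eq ?_))
      norm_num
    · -- upper bound
      have h5 := (upp (m := p) hp1 g1 hv).trans u1.le
      have h9 := NM_cmp n F v (p := m) (q := p) (s := 1) hm hp1 (by omega)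
      calc NM n m F v ≤ NM n p F v * (((1:ℕ):ℝ) + 1) ^ 2 := h9
        _ = 4 * NM n p F v := by push_cast; ring
        _ ≤ 4 * (X * (4 * Λ ^ 2) * (A1 * (4 * x))) := by
            apply mul_le_mul_of_nonneg_left _ (by norm_num)
            refine h5.trans ?_
            gcongr
        _ = 64 * X * A1 * x * Λ ^ 2 := by ring
  have h5 := Pr_or_le hok (RE 0 n 0 n) (fun F => ¬ GG n M b c1 F)
    (fun F => ((∃ k ∈ Finset.range (L + 1), X * (((L - k : ℕ) : ℝ) + 1) ^ 2 *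
            (A1 * ((n:ℝ) / (2 ^ k : ℕ)) ^ (4/3 : ℝ)) ≤ UU n (2 ^ k) (M / 2 ^ k) (↑F : Set Edg)) ∨
          ∃ k ∈ Finset.range (L + 1), X * (((L - k : ℕ) : ℝ) + 1) ^ 2 *
            (A2 * ((n : ℝ) ^ (4 / 3 : ℝ) * ((2 ^ k : ℕ) : ℝ) ^ (4 / 3 : ℝ))) ≤
              ZZ n (2 ^ k) b (↑F : Set Edg)))
  have h6 := Pr_or_le hok (RE 0 n 0 n)
    (fun F => (∃ k ∈ Finset.range (L + 1), X * (((L - k : ℕ) : ℝ) + 1) ^ 2 *
            (A1 * ((n:ℝ) / (2 ^ k : ℕ)) ^ (4/3 : ℝ)) ≤ UU n (2 ^ k) (M / 2 ^ k) (↑F : Set Edg)))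
    (fun F => ∃ k ∈ Finset.range (L + 1), X * (((L - k : ℕ) : ℝ) + 1) ^ 2 *
            (A2 * ((n : ℝ) ^ (4 / 3 : ℝ) * ((2 ^ k : ℕ) : ℝ) ^ (4 / 3 : ℝ))) ≤
              ZZ n (2 ^ k) b (↑F : Set Edg))
  linarith

end Pool.Agent.W5h17.AC
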