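import Pool.Agent.W5h17.AC.Up

/-!
Accessible vertices: first moments, numerical form.
-/

set_option autoImplicit false

namespace Pool.Agent.W5h17.AC
open H974 H12S Finset H389NS H984P H984N H342P
open Pool.Agent.W424.OD

theorem UU_le (n m M1 : ℕ) (F : Set Edg) : UU n m M1 F ≤ (((n / m : ℕ):ℝ) + 1) ^ 2 := by
  unfold UU
  refine (Finset.sum_le_sum (fun w _ => ind_le_one _)).trans (le_of_eq ?_)
  rw [Finset.sum_const, Finset.card_product, Int.card_Icc, nsmul_eq_mul, mul_one]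
  have : ∀ J : ℕ, ((J : ℤ) + 1 - 0).toNat = J + 1 := fun J => by omega
  rw [this]
  push_cast
  ring

/-- The number of the squares of side `m` with accessible vertices: first moment. -/
theorem ex_UU_le {C : ℝ} (hC : 0 ≤ C) (hU : Up3 C) (κ : ℕ) (hκ : 1 ≤ κ) :
    ∃ A : ℝ, 0 < A ∧ ∀ n m M : ℕ, 1 ≤ m → m ≤ n → n ≤ κ * M →
      Ex (fun _ => (1/2:ℝ)) (RE 0 n 0 n) (fun F => UU n m (M / m) (↑F)) ≤
        A * ((n:ℝ) / m) ^ (4/3 : ℝ) := by
  have hκ0 : (0:ℝ) < κ := by exact_mod_cast hκ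
  refine ⟨((κ:ℝ) + 1) ^ 2 + 8 * κ * C + 8 * (1 + 3 * C), by positivity, ?_⟩
  intro n m M hm hmn hM
  have hm0 : (0:ℝ) < m := by exact_mod_cast hm
  have hn0 : (0:ℝ) < n := by
    have : 0 < n := by omega
    exact_mod_cast this
  have hx1 : (1:ℝ) ≤ (n:ℝ) / m := by
    rw [le_div_iff₀ hm0, one_mul]; exact_mod_cast hmn
  have hx43 : (1:ℝ) ≤ ((n:ℝ) / m) ^ (4/3 : ℝ) := Real.one_le_rpow hx1 (by norm_num)
  obtain ⟨J, hJ⟩ : ∃ J : ℕ, J = n / m := ⟨_, rfl⟩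
  have hJ1 : 1 ≤ J := by
    rw [hJ, Nat.one_le_div_iff (by omega)]; exact hmn
  have hJ1' : (1:ℝ) ≤ J := by exact_mod_cast hJ1
  have hJ0 : (0:ℝ) < J := by linarith
  have hJx : (J:ℝ) ≤ (n:ℝ) / m := by
    rw [hJ]; exact Nat.cast_div_le
  have hJ43 : (J:ℝ) ^ (4/3 : ℝ) ≤ ((n:ℝ) / m) ^ (4/3 : ℝ) :=
    Real.rpow_le_rpow hJ0.le hJx (by norm_num)
  by_cases hMm : M / m = 0
  · have hMlt : M < m := by
      rcases (Nat.div_eq_zero_iff).1 hMm with h | h
      · omega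
      · exact h
    have hJκ : J ≤ κ := by
      rw [hJ]
      apply Nat.div_le_of_le_mul
      nlinarith
    have hJκ' : (J:ℝ) ≤ κ := by exact_mod_cast hJκ
    have h1 : Ex (fun _ => (1/2:ℝ)) (RE 0 n 0 n) (fun F => UU n m (M / m) (↑F)) ≤
        ((J:ℝ) + 1) ^ 2 := by
      refine Ex_le_of_le hok (fun F _ => ?_)
      rw [hJ]
      exact UU_le n m (M / m) (↑F)
    refine h1.trans ?_
    have h2 : ((J:ℝ) + 1) ^ 2 ≤ ((κ:ℝ) + 1) ^ 2 := by gcongr
    have h3 : 0 ≤ 8 * κ * C + 8 * (1 + 3 * C) := by positivity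
    calc ((J:ℝ) + 1) ^ 2 ≤ ((κ:ℝ) + 1) ^ 2 * 1 := by linarith
      _ ≤ (((κ:ℝ) + 1) ^ 2 + 8 * κ * C + 8 * (1 + 3 * C)) * ((n:ℝ) / m) ^ (4/3 : ℝ) := by
        apply mul_le_mul _ hx43 (by norm_num) (by positivity)
        linarith
  · obtain ⟨M1, hM1⟩ : ∃ M1 : ℕ, M1 = M / m := ⟨_, rfl⟩
    rw [← hM1] at hMm ⊢
    have hM1' : 1 ≤ M1 := by omega
    have hM10 : (0:ℝ) < M1 := by exact_mod_cast hM1'
    have hlt : M < m * (M1 + 1) := by
      rw [hM1]; exact Nat.lt_mul_div_succ M (by omega)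
    have hJM : J ≤ 2 * κ * M1 := by
      rw [hJ]
      apply Nat.div_le_of_le_mul
      have h1 : M ≤ m * (2 * M1) := by nlinarith
      calc n ≤ κ * M := hM
        _ ≤ κ * (m * (2 * M1)) := Nat.mul_le_mul_left κ h1
        _ = m * (2 * κ * M1) := by ring
    have hJM' : (J:ℝ) ≤ 2 * κ * M1 := by exact_mod_cast hJM
    have h1 := ex_UU hC hU (n := n) hm M1
    rw [← hJ] at h1
    have h2 := sum_ph_le hC (show (0:ℝ) ≤ 2/3 by norm_num) (show (2/3:ℝ) < 1 by norm_num) J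
    have h3 : ph C (2/3) (M1:ℤ) ≤ 2 * κ * C * (J:ℝ) ^ (-(2/3) : ℝ) := by
      unfold ph
      rw [if_neg (by omega)]
      have h4 : (((M1:ℤ):ℝ)) = (M1:ℝ) := by norm_cast
      rw [h4]
      have h5 : (M1:ℝ) ^ (-(2/3):ℝ) ≤ ((J:ℝ) / (2 * κ)) ^ (-(2/3):ℝ) := by
        apply Real.rpow_le_rpow_of_nonpos (by positivity) _ (by norm_num)
        rw [div_le_iff₀ (by positivity)]
        linarith
      have h6 : ((J:ℝ) / (2 * κ)) ^ (-(2/3):ℝ) = (2 * κ) ^ (2/3:ℝ) * (J:ℝ) ^ (-(2/3):ℝ) := by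
        rw [Real.div_rpow hJ0.le (by positivity), Real.rpow_neg (by positivity : (0:ℝ) ≤ 2 * κ)]
        field_simp
      have h7 : (2 * (κ:ℝ)) ^ (2/3:ℝ) ≤ 2 * κ := by
        have : (1:ℝ) ≤ κ := by exact_mod_cast hκ
        calc (2 * (κ:ℝ)) ^ (2/3:ℝ) ≤ (2 * (κ:ℝ)) ^ (1:ℝ) :=
              Real.rpow_le_rpow_of_exponent_le (by linarith) (by norm_num)
          _ = 2 * κ := Real.rpow_one _
      calc C * (M1:ℝ) ^ (-(2/3):ℝ) ≤ C * ((2 * κ) ^ (2/3:ℝ) * (J:ℝ) ^ (-(2/3):ℝ)) := by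
            rw [← h6]; gcongr
        _ ≤ C * ((2 * κ) * (J:ℝ) ^ (-(2/3):ℝ)) := by gcongr
        _ = _ := by ring
    have e1 : (J:ℝ) ^ 2 * (J:ℝ) ^ (-(2/3) : ℝ) = (J:ℝ) ^ (4/3 : ℝ) := by
      rw [← Real.rpow_natCast, ← Real.rpow_add hJ0]
      norm_num
    have e2 : (J:ℝ) * (J:ℝ) ^ (1/3 : ℝ) = (J:ℝ) ^ (4/3 : ℝ) := by
      nth_rewrite 1 [← Real.rpow_one (J:ℝ)]
      rw [← Real.rpow_add hJ0]
      norm_num
    have e3 : (1:ℝ) ≤ (J:ℝ) ^ (1/3:ℝ) := Real.one_le_rpow hJ1' (by norm_num)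
    have e4 : (1 - 2/3 : ℝ) = 1/3 := by norm_num
    rw [e4] at h2
    have h8 : ((J:ℝ) + 1) ^ 2 * ph C (2/3) (M1:ℤ) ≤ 8 * κ * C * (J:ℝ) ^ (4/3 : ℝ) := by
      calc ((J:ℝ) + 1) ^ 2 * ph C (2/3) (M1:ℤ)
          ≤ (4 * (J:ℝ) ^ 2) * (2 * κ * C * (J:ℝ) ^ (-(2/3) : ℝ)) := by
            apply mul_le_mul _ h3 (ph_nonneg hC _) (by positivity)
            nlinarith
        _ = 8 * κ * C * ((J:ℝ) ^ 2 * (J:ℝ) ^ (-(2/3) : ℝ)) := by ring
        _ = _ := by rw [e1]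
    have h9 : 4 * ((J:ℝ) + 1) * ∑ x ∈ Finset.Icc (0:ℤ) J, ph C (2/3) x ≤
        8 * (1 + 3 * C) * (J:ℝ) ^ (4/3 : ℝ) := by
      calc 4 * ((J:ℝ) + 1) * ∑ x ∈ Finset.Icc (0:ℤ) J, ph C (2/3) x
          ≤ (8 * (J:ℝ)) * ((1 + 3 * C) * (J:ℝ) ^ (1/3:ℝ)) := by
            apply mul_le_mul (by linarith) _ (Finset.sum_nonneg (fun x _ => ph_nonneg hC x))
              (by positivity)
            refine h2.trans ?_
            have : C * ((J:ℝ) ^ (1/3:ℝ) / (1/3)) = 3 * C * (J:ℝ) ^ (1/3:ℝ) := by ring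
            rw [this, add_mul]
            linarith
        _ = 8 * (1 + 3 * C) * ((J:ℝ) * (J:ℝ) ^ (1/3:ℝ)) := by ring
        _ = _ := by rw [e2]
    refine h1.trans ?_
    calc ((J:ℝ) + 1) ^ 2 * ph C (2/3) (M1:ℤ) +
          4 * ((J:ℝ) + 1) * ∑ x ∈ Finset.Icc (0:ℤ) J, ph C (2/3) x
        ≤ 8 * κ * C * (J:ℝ) ^ (4/3 : ℝ) + 8 * (1 + 3 * C) * (J:ℝ) ^ (4/3 : ℝ) := add_le_add h8 h9
      _ = (8 * κ * C + 8 * (1 + 3 * C)) * (J:ℝ) ^ (4/3 : ℝ) := by ring
      _ ≤ (((κ:ℝ) + 1) ^ 2 + 8 * κ * C + 8 * (1 + 3 * C)) * ((n:ℝ) / m) ^ (4/3 : ℝ) := by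
        apply mul_le_mul _ hJ43 (by positivity) (by positivity)
        have : 0 ≤ ((κ:ℝ) + 1) ^ 2 := by positivity
        linarith

/-! ### The part near the boundary -/

open Classical in
/-- The vertices near the boundary with three arms. -/
noncomputable def BD (n b : ℕ) (F : Set Edg) : ℝ :=
  ∑ w ∈ (Plain.box n).filter (fun w => bdist n w < b), ind (A3k w (bdist n w) F)

theorem BD_nonneg (n b : ℕ) (F : Set Edg) : 0 ≤ BD n b F := by
  unfold BD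
  exact Finset.sum_nonneg fun _ _ => ind_nonneg _

open Classical in
theorem bd_sub {n b M : ℕ} {F : Finset Plain.Edge} {v w : ℤ × ℤ}
    (hm : IsMax n (↑F : Set Edg) v) (hb : Big n ((M:ℤ) + 1) (↑F : Set Edg)) (hbM : b ≤ M)
    (hw : w ∈ (accessible n F v).filter (fun w => bdist n w < b)) :
    w ∈ (Plain.box n).filter (fun w => bdist n w < b) ∧ A3k w (bdist n w) (↑F : Set Edg) := by
  rw [Finset.mem_filter] at hw
  obtain ⟨hw1, hw2⟩ := hw
  unfold accessible at hw1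
  rw [Finset.mem_filter] at hw1
  rw [Finset.mem_filter]
  refine ⟨⟨hw1.1, hw2⟩, ?_⟩
  by_cases hk0 : bdist n w ≤ 0
  · exact Or.inl hk0
  right
  have hkn : (((bdist n w).toNat : ℕ) : ℤ) = bdist n w := Int.toNat_of_nonneg (by omega)
  have hbM' : (b:ℤ) ≤ M := by exact_mod_cast hbM
  refine acc_arm (M := (M:ℤ)) hm hb hw1.2 le_rfl (by omega) ⟨le_rfl, ?_⟩ ⟨le_rfl, ?_⟩
    (by omega) (by omega)
  · push_cast; linarith only
  · push_cast; linarith only

open Classical in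
theorem bd_card {n b M : ℕ} {F : Finset Plain.Edge} {v : ℤ × ℤ}
    (hm : IsMax n (↑F : Set Edg) v) (hb : Big n ((M:ℤ) + 1) (↑F : Set Edg)) (hbM : b ≤ M) :
    (((accessible n F v).filter (fun w => bdist n w < b)).card : ℝ) ≤ BD n b (↑F : Set Edg) := by
  have h1 : (((accessible n F v).filter (fun w => bdist n w < b)).card : ℝ) =
      ∑ _z ∈ (accessible n F v).filter (fun w => bdist n w < b), (1:ℝ) := by
    rw [Finset.sum_const, nsmul_eq_mul, mul_one]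
  rw [h1]
  unfold BD
  refine (Finset.sum_le_sum (g := fun w => ind (A3k w (bdist n w) (↑F : Set Edg)))
    fun z hz => ?_).trans
    (Finset.sum_le_sum_of_subset_of_nonneg (fun z hz => (bd_sub hm hb hbM hz).1)
      fun z _ _ => ind_nonneg _)
  rw [ind_of (bd_sub hm hb hbM hz).2]

theorem ex_BD {C : ℝ} (hC : 0 ≤ C) (hU : Up3 C) (n b : ℕ) :
    Ex (fun _ => (1/2:ℝ)) (RE 0 n 0 n) (fun F => BD n b (↑F)) ≤
      4 * (n + 1) * ∑ x ∈ Finset.Icc (0:ℤ) b, ph C (2/3) x := by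
  classical
  set g : ℤ → ℝ := fun x => if x < b then ph C (2/3) x else 0 with hg
  have hg0 : ∀ x, 0 ≤ g x := by
    intro x
    rw [hg]
    simp only
    split_ifs
    · exact ph_nonneg hC x
    · exact le_rfl
  have h1 : Ex (fun _ => (1/2:ℝ)) (RE 0 n 0 n) (fun F => BD n b (↑F)) ≤
      ∑ w ∈ Finset.Icc (0:ℤ) n ×ˢ Finset.Icc (0:ℤ) n,
        ((g w.1 + g (n - w.1)) + (g w.2 + g (n - w.2))) := by
    unfold BD
    rw [Ex_sum]
    have h2 : ∀ w ∈ (Plain.box n).filter (fun w => bdist n w < b),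
        Ex (fun _ => (1/2:ℝ)) (RE 0 n 0 n) (fun F => ind (A3k w (bdist n w) (↑F : Set Edg))) ≤
          ((g w.1 + g (n - w.1)) + (g w.2 + g (n - w.2))) := by
      intro w hw
      rw [Finset.mem_filter] at hw
      have h3 : Ex (fun _ => (1/2:ℝ)) (RE 0 n 0 n)
          (fun F => ind (A3k w (bdist n w) (↑F : Set Edg))) ≤ ph C (2/3) (bdist n w) := by
        unfold ph
        split_ifs with h
        · exact Pr_le_one hok _ (fun F => A3k w (bdist n w) (↑F : Set Edg))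
        · have hkn : (((bdist n w).toNat : ℕ) : ℤ) = bdist n w := Int.toNat_of_nonneg (by omega)
          have h2 := hU w 1 (bdist n w).toNat le_rfl (by omega) (RE 0 n 0 n)
            (blk_sub (by rw [hkn]))
          have h4 : ((((bdist n w).toNat : ℕ) : ℝ)) = ((bdist n w : ℤ) : ℝ) := by
            exact_mod_cast hkn
          have h5 : (0:ℝ) < ((bdist n w : ℤ) : ℝ) := by exact_mod_cast (by omega : 0 < bdist n w)
          rw [h4, Nat.cast_one, one_div ((bdist n w : ℤ) : ℝ), Real.inv_rpow h5.le,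
            ← Real.rpow_neg h5.le] at h2
          refine le_trans ?_ h2
          refine Pr_mono hok ?_
          intro F _ hF
          rcases hF with hF | hF
          · exact absurd hF h
          · exact hF
      refine h3.trans ?_
      have hw2 := hw.2
      have k1 := hg0 w.1
      have k2 := hg0 (n - w.1)
      have k3 := hg0 w.2
      have k4 := hg0 (n - w.2)
      unfold bdist at hw2 ⊢
      rcases min_choice (min w.1 ((n:ℤ) - w.1)) (min w.2 (n - w.2)) with h | h <;>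
        rw [h] at hw2 ⊢
      · rcases min_choice w.1 ((n:ℤ) - w.1) with h | h <;> rw [h] at hw2 ⊢
        · have : g w.1 = ph C (2/3) w.1 := by rw [hg]; simp only; rw [if_pos hw2]
          linarith
        · have : g (n - w.1) = ph C (2/3) (n - w.1) := by rw [hg]; simp only; rw [if_pos hw2]
          linarith
      · rcases min_choice w.2 ((n:ℤ) - w.2) with h | h <;> rw [h] at hw2 ⊢
        · have : g w.2 = ph C (2/3) w.2 := by rw [hg]; simp only; rw [if_pos hw2]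
          linarith
        · have : g (n - w.2) = ph C (2/3) (n - w.2) := by rw [hg]; simp only; rw [if_pos hw2]
          linarith
    refine (Finset.sum_le_sum h2).trans ?_
    refine Finset.sum_le_sum_of_subset_of_nonneg (Finset.filter_subset _ _) ?_
    intro w _ _
    have k1 := hg0 w.1
    have k2 := hg0 (n - w.1)
    have k3 := hg0 w.2
    have k4 := hg0 (n - w.2)
    linarith
  refine h1.trans ?_
  have hG : ∑ x ∈ Finset.Icc (0:ℤ) n, g x ≤ ∑ x ∈ Finset.Icc (0:ℤ) b, ph C (2/3) x := by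
    rw [hg]
    simp only
    rw [← Finset.sum_filter]
    refine Finset.sum_le_sum_of_subset_of_nonneg ?_ (fun x _ _ => ph_nonneg hC x)
    intro x hx
    rw [Finset.mem_filter, Finset.mem_Icc] at hx
    rw [Finset.mem_Icc]
    omega
  rw [Finset.sum_product]
  have hc : (Finset.Icc (0:ℤ) n).card = n + 1 := by
    rw [Int.card_Icc]; omega
  simp_rw [Finset.sum_add_distrib, Finset.sum_const, hc, sum_refl n g]
  simp_rw [nsmul_eq_mul]
  have hr : ∑ x ∈ Finset.Icc (0:ℤ) n, ((n + 1 : ℕ) : ℝ) * g (n - x) =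
      ((n + 1 : ℕ) : ℝ) * ∑ x ∈ Finset.Icc (0:ℤ) n, g x := by
    rw [← Finset.mul_sum, sum_refl n g]
  have hr2 : ∑ x ∈ Finset.Icc (0:ℤ) n, ((n + 1 : ℕ) : ℝ) * g x =
      ((n + 1 : ℕ) : ℝ) * ∑ x ∈ Finset.Icc (0:ℤ) n, g x := by
    rw [← Finset.mul_sum]
  simp only [hr, hr2]
  have hn0 : (0:ℝ) ≤ (n:ℝ) + 1 := by positivity
  have := mul_le_mul_of_nonneg_left hG hn0
  push_cast
  linarith

end Pool.Agent.W5h17.AC
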