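import Pool.Agent.W424.OD.Cnt

/-!
Accessible vertices of the largest critical cluster: arms around the squares of side `m`, first
moments.
-/

set_option autoImplicit false

namespace Pool.Agent.W5h17.AC
open H974 H12S Finset H389NS H984P H984N H342P
open Pool.Agent.W424.OD

theorem hok : Ok (fun _ : Edg => (1 / 2 : ℝ)) := fun _ => ⟨by norm_num, by norm_num⟩

theorem big_far {n : ℕ} {M : ℤ} {G : Set Edg} {v : Vtx} (hm : IsMax n G v)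
    (hb : Big n (M + 1) G) (u : Vtx) (k : ℤ) (hk : k ≤ M + 1) :
    ∃ w, Reach G v w ∧ FarF u k w := by
  obtain ⟨a', b', ha', hb', hmax⟩ := hm
  obtain ⟨c', d', hc, hd, hcd, h8⟩ := hb
  have h8' : 8 * (M + 1) ^ 2 ≤ dsq a' b' := h8.trans (hmax c' d' hc hd hcd)
  by_contra hcon
  push Not at hcon
  have h1 := hcon a' ha'
  have h2 := hcon b' hb'
  have h3 := dsq_lt h1 h2
  have h4 : 0 < k := by
    unfold FarF at h1
    rw [not_not] at h1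
    unfold inF at h1
    omega
  have h5 : k ^ 2 ≤ (M + 1) ^ 2 := pow_le_pow_left₀ h4.le hk 2
  linarith

/-- three arms around an accessible vertex -/
theorem acc_arm {n : ℕ} {M : ℤ} {F : Finset Plain.Edge} {v w c : ℤ × ℤ} {a k : ℕ}
    (hm : IsMax n (↑F : Set Edg) v) (hb : Big n (M + 1) (↑F : Set Edg))
    (h : Accessible n F v w) (ha : 1 ≤ a) (hak : a ≤ k)
    (h1 : c.1 ≤ w.1 ∧ w.1 < c.1 + a) (h2 : c.2 ≤ w.2 ∧ w.2 < c.2 + a)
    (hkM : (k : ℤ) ≤ M) (hkb : (k : ℤ) ≤ bdist n c) : A3v c a k (↑F : Set Edg) := by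
  obtain ⟨x', hx', hxf⟩ := big_far hm hb c (k + 1) (by linarith)
  obtain ⟨hwc, e, p, q, he, hp, hq, hpq⟩ := h
  have hwR : Reach (↑F : Set Edg) v w := (Plain.mem_cluster _ _ _).1 hwc
  have hww : BX c a w := by
    unfold BX inR
    omega
  have hpw : BX c a p := by
    obtain ⟨x, y, t⟩ := e
    obtain ⟨w1, w2⟩ := w
    obtain ⟨p1, p2⟩ := p
    unfold BX inR
    unfold Plain.fst Plain.snd at he
    cases t
    · simp only [Bool.false_eq_true, if_false, Prod.mk.injEq] at he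
      simp only at h1 h2 ⊢
      omega
    · simp only [if_true, Prod.mk.injEq] at he
      simp only at h1 h2 ⊢
      omega
  refine A3v_of (v := v) (x := w) (x' := x') (w := p) (w' := q) hak hww hwR ?_ hx' hpw ?_
    (avoid_reach hpq)
  · unfold FarF inF at hxf
    unfold BX inR
    omega
  · intro hqb
    apply hq
    unfold Plain.box
    rw [Finset.mem_product, Finset.mem_Icc, Finset.mem_Icc]
    unfold BX inR at hqb
    unfold bdist at hkb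
    omega

theorem sum_box {C s : ℝ} (hC : 0 ≤ C) (J : ℕ) (M1 : ℤ) :
    ∑ w ∈ Finset.Icc (0:ℤ) J ×ˢ Finset.Icc (0:ℤ) J, ph C s (min M1 (bdist J w)) ≤
      ((J:ℝ) + 1) ^ 2 * ph C s M1 + 4 * (J + 1) * ∑ x ∈ Finset.Icc (0:ℤ) J, ph C s x := by
  have h1 : ∑ w ∈ Finset.Icc (0:ℤ) J ×ˢ Finset.Icc (0:ℤ) J, ph C s (min M1 (bdist J w)) ≤
      ∑ w ∈ Finset.Icc (0:ℤ) J ×ˢ Finset.Icc (0:ℤ) J, (ph C s M1 + (ph C s w.1 + ph C s (J - w.1) +
        (ph C s w.2 + ph C s (J - w.2)))) :=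
    Finset.sum_le_sum fun w _ => ph_min hC J M1 w
  refine h1.trans (le_of_eq ?_)
  rw [Finset.sum_product]
  have hc : (Finset.Icc (0:ℤ) J).card = J + 1 := by
    rw [Int.card_Icc]; omega
  simp_rw [Finset.sum_add_distrib, Finset.sum_const, hc, sum_refl J (ph C s)]
  simp_rw [nsmul_eq_mul]
  have hr : ∑ x ∈ Finset.Icc (0:ℤ) J, ((J + 1 : ℕ) : ℝ) * ph C s (J - x) =
      ((J + 1 : ℕ) : ℝ) * ∑ x ∈ Finset.Icc (0:ℤ) J, ph C s x := by
    rw [← Finset.mul_sum, sum_refl J (ph C s)]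
  have hr2 : ∑ x ∈ Finset.Icc (0:ℤ) J, ((J + 1 : ℕ) : ℝ) * ph C s x =
      ((J + 1 : ℕ) : ℝ) * ∑ x ∈ Finset.Icc (0:ℤ) J, ph C s x := by
    rw [← Finset.mul_sum]
  simp only [hr, hr2]
  push_cast
  ring

/-- The squares of side `m` with three arms. -/
noncomputable def UU (n m M1 : ℕ) (F : Set Edg) : ℝ :=
  ∑ w ∈ Finset.Icc (0:ℤ) (n / m : ℕ) ×ˢ Finset.Icc (0:ℤ) (n / m : ℕ),
    ind (min (M1:ℤ) (bdist (n / m) w) ≤ 0 ∨
      A3v ((m:ℤ) * w.1, (m:ℤ) * w.2) m (m * (min (M1:ℤ) (bdist (n / m) w)).toNat) F)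

theorem UU_nonneg (n m M1 : ℕ) (F : Set Edg) : 0 ≤ UU n m M1 F :=
  Finset.sum_nonneg fun _ _ => ind_nonneg _

theorem bdist_mul {n m : ℕ} (hm : 1 ≤ m) (w : ℤ × ℤ) {k : ℕ} (hk : (k:ℤ) ≤ bdist (n / m) w) :
    ((m * k : ℕ) : ℤ) ≤ bdist n ((m:ℤ) * w.1, (m:ℤ) * w.2) := by
  unfold bdist at hk ⊢
  simp only
  have h0 : ((m * (n / m) : ℕ) : ℤ) ≤ n := by exact_mod_cast Nat.mul_div_le n m
  have hm0 : (0:ℤ) ≤ m := by positivity
  obtain ⟨h1, h2⟩ := le_min_iff.1 hk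
  obtain ⟨h3, h4⟩ := le_min_iff.1 h1
  obtain ⟨h5, h6⟩ := le_min_iff.1 h2
  push_cast at h0 ⊢
  push_cast at h4 h6
  have g1 := mul_le_mul_of_nonneg_left h3 hm0
  have g2 := mul_le_mul_of_nonneg_left h4 hm0
  have g3 := mul_le_mul_of_nonneg_left h5 hm0
  have g4 := mul_le_mul_of_nonneg_left h6 hm0
  rw [mul_sub] at g2 g4
  refine le_min (le_min g1 ?_) (le_min g3 ?_)
  · linarith
  · linarith

/-- The event of the square `w`. -/
def PU (n m M1 : ℕ) (F : Set Edg) (w : ℤ × ℤ) : Prop :=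
  min (M1:ℤ) (bdist (n / m) w) ≤ 0 ∨
    A3v ((m:ℤ) * w.1, (m:ℤ) * w.2) m (m * (min (M1:ℤ) (bdist (n / m) w)).toNat) F

theorem img_mem {n m M1 : ℕ} {M : ℕ} {F : Finset Plain.Edge} {v w : ℤ × ℤ} (hm1 : 1 ≤ m)
    (hm : IsMax n (↑F : Set Edg) v) (hb : Big n ((M:ℤ) + 1) (↑F : Set Edg)) (hM : m * M1 ≤ M)
    (hacc : Accessible n F v w) : PU n m M1 (↑F : Set Edg) (w.1 / (m : ℤ), w.2 / (m : ℤ)) := by
  have hm0 : (0:ℤ) < m := by exact_mod_cast hm1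
  unfold PU
  obtain ⟨k, hk⟩ : ∃ k : ℤ, k = min (M1:ℤ) (bdist (n / m) (w.1 / (m : ℤ), w.2 / (m : ℤ))) :=
    ⟨_, rfl⟩
  rw [← hk]
  by_cases hk0 : k ≤ 0
  · exact Or.inl hk0
  right
  have hkM' : k ≤ (M1:ℤ) := by rw [hk]; exact min_le_left _ _
  have hkb' : k ≤ bdist (n / m) (w.1 / (m : ℤ), w.2 / (m : ℤ)) := by rw [hk]; exact min_le_right _ _
  clear hk
  have hkn : ((k.toNat : ℕ) : ℤ) = k := Int.toNat_of_nonneg (by omega)
  have hk1 : 1 ≤ k.toNat := by omega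
  have hkM : k.toNat ≤ M1 := by omega
  have hkb : ((k.toNat : ℕ) : ℤ) ≤ bdist (n / m) (w.1 / (m : ℤ), w.2 / (m : ℤ)) := by
    rw [hkn]; exact hkb'
  have e1 := Int.mul_ediv_add_emod w.1 m
  have e2 := Int.emod_nonneg w.1 hm0.ne'
  have e3 := Int.emod_lt_of_pos w.1 hm0
  have e4 := Int.mul_ediv_add_emod w.2 m
  have e5 := Int.emod_nonneg w.2 hm0.ne'
  have e6 := Int.emod_lt_of_pos w.2 hm0
  have c1 : (m:ℤ) * (w.1 / (m:ℤ)) ≤ w.1 := by linarith only [e1, e2]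
  have c2 : w.1 < (m:ℤ) * (w.1 / (m:ℤ)) + m := by linarith only [e1, e3]
  have c3 : (m:ℤ) * (w.2 / (m:ℤ)) ≤ w.2 := by linarith only [e4, e5]
  have c4 : w.2 < (m:ℤ) * (w.2 / (m:ℤ)) + m := by linarith only [e4, e6]
  have c5 : ((m * k.toNat : ℕ) : ℤ) ≤ M := by
    have : m * k.toNat ≤ m * M1 := Nat.mul_le_mul_left m hkM
    exact_mod_cast this.trans hM
  have c6 := bdist_mul hm1 (w.1 / (m : ℤ), w.2 / (m : ℤ)) hkb
  exact acc_arm (c := ((m:ℤ) * (w.1 / (m:ℤ)), (m:ℤ) * (w.2 / (m:ℤ)))) (M := (M:ℤ)) hm hb hacc hm1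
    (Nat.le_mul_of_pos_right m hk1) ⟨c1, c2⟩ ⟨c3, c4⟩ c5 c6

theorem img_sub {n m M1 : ℕ} {M : ℕ} {F : Finset Plain.Edge} {v : ℤ × ℤ} (hm1 : 1 ≤ m)
    (hm : IsMax n (↑F : Set Edg) v) (hb : Big n ((M:ℤ) + 1) (↑F : Set Edg)) (hM : m * M1 ≤ M)
    {z : ℤ × ℤ} (hz : z ∈ (accessible n F v).image (fun w => (w.1 / (m : ℤ), w.2 / (m : ℤ)))) :
    z ∈ Finset.Icc (0:ℤ) (n / m : ℕ) ×ˢ Finset.Icc (0:ℤ) (n / m : ℕ) ∧
      PU n m M1 (↑F : Set Edg) z := by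
  classical
  have hm0 : (0:ℤ) < m := by exact_mod_cast hm1
  rw [Finset.mem_image] at hz
  obtain ⟨w, hw, rfl⟩ := hz
  unfold accessible Plain.box at hw
  rw [Finset.mem_filter, Finset.mem_product, Finset.mem_Icc, Finset.mem_Icc] at hw
  obtain ⟨⟨⟨a1, a2⟩, a3, a4⟩, hacc⟩ := hw
  refine ⟨?_, img_mem hm1 hm hb hM hacc⟩
  rw [Finset.mem_product, Finset.mem_Icc, Finset.mem_Icc, Int.natCast_div]
  exact ⟨⟨Int.ediv_nonneg a1 hm0.le, Int.ediv_le_ediv hm0 a2⟩,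
    Int.ediv_nonneg a3 hm0.le, Int.ediv_le_ediv hm0 a4⟩

theorem img_le {n m M1 : ℕ} {M : ℕ} {F : Finset Plain.Edge} {v : ℤ × ℤ} (hm1 : 1 ≤ m)
    (hm : IsMax n (↑F : Set Edg) v) (hb : Big n ((M:ℤ) + 1) (↑F : Set Edg)) (hM : m * M1 ≤ M) :
    (((accessible n F v).image (fun w => (w.1 / (m : ℤ), w.2 / (m : ℤ)))).card : ℝ) ≤
      UU n m M1 (↑F : Set Edg) := by
  classical
  have h1 : (((accessible n F v).image (fun w => (w.1 / (m : ℤ), w.2 / (m : ℤ)))).card : ℝ) =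
      ∑ _z ∈ (accessible n F v).image (fun w => (w.1 / (m : ℤ), w.2 / (m : ℤ))), (1:ℝ) := by
    rw [Finset.sum_const, nsmul_eq_mul, mul_one]
  rw [h1]
  unfold UU
  refine (Finset.sum_le_sum (g := fun z => ind (PU n m M1 (↑F : Set Edg) z)) fun z hz => ?_).trans
    (Finset.sum_le_sum_of_subset_of_nonneg (fun z hz => (img_sub hm1 hm hb hM hz).1)
      fun z _ _ => ind_nonneg _)
  rw [ind_of (img_sub hm1 hm hb hM hz).2]

/-- The upper bound of the three-arm probabilities. -/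
def Up3 (C : ℝ) : Prop := ∀ (c : ℤ × ℤ) (d k : ℕ), 1 ≤ d → d ≤ k →
  ∀ S : Finset Edg, blk c k ⊆ S →
    PQ (1/2) S (fun F => A3v c d k ↑F) ≤ C * ((d:ℝ) / k) ^ (2/3 : ℝ)

theorem ex_UU {C : ℝ} (hC : 0 ≤ C) (hU : Up3 C) {n m : ℕ} (hm : 1 ≤ m) (M1 : ℕ) :
    Ex (fun _ => (1/2:ℝ)) (RE 0 n 0 n) (fun F => UU n m M1 (↑F)) ≤
      (((n / m : ℕ):ℝ) + 1) ^ 2 * ph C (2/3) M1 +
        4 * ((n / m : ℕ) + 1) * ∑ x ∈ Finset.Icc (0:ℤ) (n / m : ℕ), ph C (2/3) x := by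
  refine le_trans ?_ (sum_box (s := 2/3) hC (n / m) M1)
  unfold UU
  rw [Ex_sum]
  apply Finset.sum_le_sum
  intro w _
  set k : ℤ := min (M1:ℤ) (bdist (n / m) w) with hk
  unfold ph
  split_ifs with h
  · exact Pr_le_one hok _ (fun F => k ≤ 0 ∨ A3v ((m:ℤ) * w.1, (m:ℤ) * w.2) m (m * k.toNat) (↑F : Set Edg))
  · have hkn : ((k.toNat : ℕ) : ℤ) = k := Int.toNat_of_nonneg (by omega)
    have hk1 : 1 ≤ k.toNat := by omega
    have hkb : ((k.toNat : ℕ) : ℤ) ≤ bdist (n / m) w := by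
      rw [hkn]; exact min_le_right _ _
    have h2 := hU ((m:ℤ) * w.1, (m:ℤ) * w.2) m (m * k.toNat) hm (Nat.le_mul_of_pos_right m hk1) (RE 0 n 0 n)
      (blk_sub (bdist_mul hm w hkb))
    have h3 : (((m : ℕ) : ℝ) / ((m * k.toNat : ℕ) : ℝ)) ^ (2/3:ℝ) = (k:ℝ) ^ (-(2/3):ℝ) := by
      have h4 : (((k.toNat : ℕ) : ℝ)) = (k : ℝ) := by exact_mod_cast hkn
      have h5 : (0:ℝ) < k := by exact_mod_cast (by omega : 0 < k)
      have h6 : (0:ℝ) < m := by exact_mod_cast hm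
      push_cast
      rw [h4, div_mul_eq_div_div, div_self h6.ne', one_div, Real.inv_rpow h5.le,
        Real.rpow_neg h5.le]
    rw [h3] at h2
    refine le_trans ?_ h2
    refine Pr_mono hok ?_
    intro F _ hF
    rcases hF with hF | hF
    · exact absurd hF h
    · exact hF

end Pool.Agent.W5h17.AC
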